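import Pool.Graph.R_seed8.H483R3.Urn.TaskTaylor
import Pool.Graph.R_seed8.H483R3.Urn.Cont

set_option autoImplicit false

/-!
Second order Taylor bound of the mean field of the graph based Polya urn at points which may lie
on the boundary, and continuity of the weights there.
-/

namespace Pool.Agent.KS6_36.Urn

open Filter Topology H483U

/-- points with nonnegative coordinates such that no two adjacent ones vanish -/
def Adm {V : Type} [Fintype V] [DecidableEq V] (G : SimpleGraph V) (p : V → ℝ) : Prop :=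
  (∀ i, 0 ≤ p i) ∧ ∀ i j, G.Adj i j → 0 < p i + p j

lemma adm_of_K {V : Type} [Fintype V] [DecidableEq V] (G : SimpleGraph V) [DecidableRel G.Adj]
    {p : V → ℝ} (hp : p ∈ K G) : Adm G p := by
  refine ⟨hp.1, fun i j hij => ?_⟩
  have h1 := hp.2.2 i j hij
  have h2 : 0 ≤ NN G := Cont.NN_nonneg G
  have : 0 < 1 / (NN G + 1) := by positivity
  linarith

lemma pr_zero_left {α b : ℝ} (hα : 0 < α) : pr α 0 b = 0 := by
  unfold pr
  rw [Real.zero_rpow hα.ne']
  simp

lemma pr_add {α a b : ℝ} (h : 0 < a ^ α + b ^ α) : pr α a b = 1 - pr α b a := by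
  unfold pr
  rw [add_comm (b ^ α) (a ^ α)]
  field_simp
  ring

lemma den_pos' {α a b : ℝ} (ha : 0 ≤ a) (hb : 0 ≤ b) (h : 0 < a + b) : 0 < a ^ α + b ^ α := by
  rcases ha.lt_or_eq with h6 | h6
  · exact add_pos_of_pos_of_nonneg (Real.rpow_pos_of_pos h6 _) (Real.rpow_nonneg hb _)
  · have h7 : 0 < b := by rw [← h6, zero_add] at h; exact h
    exact add_pos_of_nonneg_of_pos (Real.rpow_nonneg ha _) (Real.rpow_pos_of_pos h7 _)

/-- the probability of the smaller end point near a boundary point -/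
lemma edge_zero (α b0 : ℝ) (hα : 2 < α) (hb : 0 < b0) : ∃ C ρ : ℝ, 0 ≤ C ∧ 0 < ρ ∧
    ∀ a b : ℝ, 0 ≤ a → a ≤ ρ → |b - b0| ≤ ρ → 0 ≤ pr α a b ∧ pr α a b ≤ C * a ^ 2 := by
  refine ⟨1 / (b0 / 2) ^ α, min 1 (b0 / 2), by positivity, by positivity, ?_⟩
  intro a b ha ha1 hb1
  have hb2 : b0 / 2 ≤ b := by
    have := (abs_le.1 (hb1.trans (min_le_right _ _))).1
    linarith
  have hbp : 0 < b := by linarith
  have hB : (b0 / 2) ^ α ≤ b ^ α := Real.rpow_le_rpow (by positivity) hb2 (by linarith)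
  have hB0 : 0 < (b0 / 2) ^ α := by positivity
  have hA0 : 0 ≤ a ^ α := Real.rpow_nonneg ha _
  have hA : a ^ α ≤ a ^ 2 := by
    have h1 : a ≤ 1 := ha1.trans (min_le_left _ _)
    rcases ha.lt_or_eq with h | h
    · have := Real.rpow_le_rpow_of_exponent_ge h h1 hα.le
      rwa [Real.rpow_two] at this
    · rw [← h, Real.zero_rpow (by linarith)]
      norm_num
  unfold pr
  constructor
  · have := Real.rpow_nonneg hbp.le α
    positivity
  · rw [one_div, inv_mul_eq_div]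
    apply div_le_div₀ (by positivity) hA hB0
    linarith

/-- second order Taylor bound for one edge, at a point which may lie on the boundary -/
lemma edge_adm (α a0 b0 : ℝ) (hα : 2 < α) (ha : 0 ≤ a0) (hb : 0 ≤ b0) (hab : 0 < a0 + b0) :
    ∃ C ρ : ℝ, 0 ≤ C ∧ 0 < ρ ∧
    ∀ q : ℝ × ℝ, 0 ≤ q.1 → 0 ≤ q.2 → ‖q - (a0, b0)‖ ≤ ρ →
      |pr α q.1 q.2 - pr α a0 b0 - α * (pr α a0 b0 * pr α b0 a0) *
        ((q.1 - a0) / a0 - (q.2 - b0) / b0)| ≤ C * ‖q - (a0, b0)‖ ^ 2 := by
  have hα0 : 0 < α := by linarith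
  rcases ha.lt_or_eq with ha' | ha'
  · rcases hb.lt_or_eq with hb' | hb'
    · obtain ⟨C, ρ, hC, hρ, h⟩ := TaskTaylor.edge α a0 b0 ha' hb'
      exact ⟨C, ρ, hC, hρ, fun q _ _ hq => h q hq⟩
    · subst hb'
      obtain ⟨C, ρ, hC, hρ, h⟩ := edge_zero α a0 hα ha'
      refine ⟨C, min ρ (a0 / 2), hC, by positivity, ?_⟩
      intro q h1 h2 hq
      have hq1 : ‖(q - (a0, (0 : ℝ))).1‖ ≤ ‖q - (a0, 0)‖ := norm_fst_le _
      have hq2 : ‖(q - (a0, (0 : ℝ))).2‖ ≤ ‖q - (a0, 0)‖ := norm_snd_le _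
      simp only [Prod.fst_sub, Prod.snd_sub, Real.norm_eq_abs, sub_zero] at hq1 hq2
      have hq3 : 0 < q.1 := by
        have := (abs_le.1 (hq1.trans (hq.trans (min_le_right _ _)))).1
        linarith
      have h3 := h q.2 q.1 h2 (by
        have := hq2.trans (hq.trans (min_le_left _ _))
        rwa [abs_of_nonneg h2] at this) (hq1.trans (hq.trans (min_le_left _ _)))
      have e0 : pr α 0 a0 = 0 := pr_zero_left hα0
      have e1 : pr α a0 0 = 1 := by
        rw [pr_add (den_pos' ha (le_refl 0) hab), e0]; ring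
      have e2 : pr α q.1 q.2 = 1 - pr α q.2 q.1 :=
        pr_add (den_pos' h1 h2 (by linarith))
      rw [e0, e1, e2]
      have e3 : |1 - pr α q.2 q.1 - 1 - α * (1 * 0) * ((q.1 - a0) / a0 - (q.2 - 0) / 0)| =
          pr α q.2 q.1 := by
        rw [show 1 - pr α q.2 q.1 - 1 - α * (1 * 0) * ((q.1 - a0) / a0 - (q.2 - 0) / 0) =
          -(pr α q.2 q.1) by ring, abs_neg, abs_of_nonneg h3.1]
      rw [e3]
      refine h3.2.trans (mul_le_mul_of_nonneg_left ?_ hC)
      rw [abs_of_nonneg h2] at hq2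
      exact pow_le_pow_left₀ h2 hq2 2
  · subst ha'
    have hb' : 0 < b0 := by linarith
    obtain ⟨C, ρ, hC, hρ, h⟩ := edge_zero α b0 hα hb'
    refine ⟨C, ρ, hC, hρ, ?_⟩
    intro q h1 h2 hq
    have hq1 : ‖(q - ((0 : ℝ), b0)).1‖ ≤ ‖q - (0, b0)‖ := norm_fst_le _
    have hq2 : ‖(q - ((0 : ℝ), b0)).2‖ ≤ ‖q - (0, b0)‖ := norm_snd_le _
    simp only [Prod.fst_sub, Prod.snd_sub, Real.norm_eq_abs, sub_zero] at hq1 hq2
    have h3 := h q.1 q.2 h1 (by
      have := hq1.trans hq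
      rwa [abs_of_nonneg h1] at this) (hq2.trans hq)
    have e0 : pr α 0 b0 = 0 := pr_zero_left hα0
    rw [e0]
    have e3 : |pr α q.1 q.2 - 0 - α * (0 * pr α b0 0) * ((q.1 - 0) / 0 - (q.2 - b0) / b0)| =
        pr α q.1 q.2 := by
      rw [show pr α q.1 q.2 - 0 - α * (0 * pr α b0 0) * ((q.1 - 0) / 0 - (q.2 - b0) / b0) =
        pr α q.1 q.2 by ring, abs_of_nonneg h3.1]
    rw [e3]
    refine h3.2.trans (mul_le_mul_of_nonneg_left ?_ hC)
    rw [abs_of_nonneg h1] at hq1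
    exact pow_le_pow_left₀ h1 hq1 2

section
variable {V : Type} [Fintype V] [DecidableEq V] (G : SimpleGraph V) [DecidableRel G.Adj]

/-- second order Taylor bound at an admissible point -/
theorem taylor (α : ℝ) (hα : 2 < α) (p : V → ℝ) (hp : Adm G p) : ∃ C ρ : ℝ, 0 < ρ ∧
    ∀ x : V → ℝ, (∀ i, 0 ≤ x i) → ‖x - p‖ ≤ ρ → ∀ i,
      |vf G α x i - vf G α p i -
        (-(x i - p i) + α / NN G * ∑ j, w G α p i j * ((x i - p i) / p i - (x j - p j) / p j))|
        ≤ C * ‖x - p‖ ^ 2 := by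
  have key : ∀ i j, ∃ C ρ : ℝ, 0 ≤ C ∧ 0 < ρ ∧ ∀ q : ℝ × ℝ, 0 ≤ q.1 → 0 ≤ q.2 →
      ‖q - (p i, p j)‖ ≤ ρ →
      |A G i j * (pr α q.1 q.2 - pr α (p i) (p j) - α * (pr α (p i) (p j) * pr α (p j) (p i)) *
        ((q.1 - p i) / p i - (q.2 - p j) / p j))| ≤ C * ‖q - (p i, p j)‖ ^ 2 := by
    intro i j
    by_cases hij : G.Adj i j
    · obtain ⟨C, ρ, hC, hρ, h⟩ := edge_adm α (p i) (p j) hα (hp.1 i) (hp.1 j) (hp.2 i j hij)
      refine ⟨C, ρ, hC, hρ, fun q h1 h2 hq => ?_⟩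
      have : A G i j = 1 := by simp [A, hij]
      rw [this, one_mul]
      exact h q h1 h2 hq
    · refine ⟨0, 1, le_refl 0, one_pos, fun q _ _ _ => ?_⟩
      have : A G i j = 0 := by simp [A, hij]
      rw [this]
      simp
  choose C ρ hC hρ hb using key
  have hev : ∀ᶠ x in 𝓝 p, ∀ i j, ‖((x i, x j) : ℝ × ℝ) - (p i, p j)‖ ≤ ρ i j := by
    rw [eventually_all]
    intro i
    rw [eventually_all]
    intro j
    have hc : Continuous fun x : V → ℝ => ‖((x i, x j) : ℝ × ℝ) - (p i, p j)‖ := by fun_prop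
    have h0 : ‖((p i, p j) : ℝ × ℝ) - (p i, p j)‖ < ρ i j := by simpa using hρ i j
    exact (hc.continuousAt.eventually_lt_const h0).mono fun x hx => hx.le
  obtain ⟨ε, hε, hball⟩ := Metric.nhds_basis_closedBall.mem_iff.1 hev
  refine ⟨|1 / NN G| * ∑ i, ∑ j, C i j, ε, hε, fun x hx0 hx i => ?_⟩
  have hx' := hball (show x ∈ Metric.closedBall p ε by
    rw [Metric.mem_closedBall, dist_eq_norm]; exact hx)
  set R : V → ℝ := fun j => A G i j * (pr α (x i) (x j) - pr α (p i) (p j) -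
    α * (pr α (p i) (p j) * pr α (p j) (p i)) * ((x i - p i) / p i - (x j - p j) / p j)) with hR
  have hRj : ∀ j, |R j| ≤ C i j * ‖x - p‖ ^ 2 := by
    intro j
    have h1 := hb i j (x i, x j) (hx0 i) (hx0 j) (hx' i j)
    refine h1.trans (mul_le_mul_of_nonneg_left ?_ (hC i j))
    apply pow_le_pow_left₀ (norm_nonneg _)
    rw [Prod.norm_def]
    apply max_le
    · exact norm_le_pi_norm (x - p) i
    · exact norm_le_pi_norm (x - p) j
  have hsum : ∑ j, R j = ∑ j, A G i j * pr α (x i) (x j) -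
      ∑ j, A G i j * pr α (p i) (p j) -
      α * ∑ j, w G α p i j * ((x i - p i) / p i - (x j - p j) / p j) := by
    rw [Finset.mul_sum, ← Finset.sum_sub_distrib, ← Finset.sum_sub_distrib]
    apply Finset.sum_congr rfl
    intro j _
    simp only [hR, w]
    ring
  have hid : vf G α x i - vf G α p i -
        (-(x i - p i) + α / NN G * ∑ j, w G α p i j * ((x i - p i) / p i - (x j - p j) / p j)) =
      (1 / NN G) * ∑ j, R j := by
    rw [hsum]
    unfold vf
    ring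
  rw [hid, abs_mul, mul_assoc]
  apply mul_le_mul_of_nonneg_left _ (abs_nonneg _)
  calc |∑ j, R j| ≤ ∑ j, |R j| := Finset.abs_sum_le_sum_abs _ _
    _ ≤ ∑ j, C i j * ‖x - p‖ ^ 2 := Finset.sum_le_sum fun j _ => hRj j
    _ = (∑ j, C i j) * ‖x - p‖ ^ 2 := by rw [Finset.sum_mul]
    _ ≤ (∑ i, ∑ j, C i j) * ‖x - p‖ ^ 2 := by
        apply mul_le_mul_of_nonneg_right _ (by positivity)
        exact Finset.single_le_sum (f := fun i => ∑ j, C i j)
          (fun i _ => Finset.sum_nonneg fun j _ => hC i j)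
          (Finset.mem_univ i)

/-- continuity of the weights at admissible points -/
theorem w_cont (α : ℝ) (hα : 0 < α) (p : V → ℝ) (hp : Adm G p) (i j : V) :
    ContinuousAt (fun x => w G α x i j) p := by
  by_cases hij : G.Adj i j
  · have hc : ∀ k : V, ContinuousAt (fun x : V → ℝ => x k ^ α) p := fun k =>
      ((Real.continuous_rpow_const hα.le).comp (continuous_apply k)).continuousAt
    have hd : ∀ a b : V, G.Adj a b → ContinuousAt (fun x : V → ℝ => pr α (x a) (x b)) p := by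
      intro a b hab
      unfold pr
      refine ContinuousAt.div (hc a) ((hc a).add (hc b)) ?_
      exact (den_pos' (hp.1 a) (hp.1 b) (hp.2 a b hab)).ne'
    unfold w
    exact continuousAt_const.mul ((hd i j hij).mul (hd j i hij.symm))
  · have : (fun x : V → ℝ => w G α x i j) = fun _ => 0 := by
      funext x
      simp [w, A, hij]
    rw [this]
    exact continuousAt_const

/-- the weights at an end point with coordinate zero vanish -/
lemma w_zero_left {α : ℝ} (hα : 0 < α) {p : V → ℝ} {i : V} (h : p i = 0) (j : V) :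
    w G α p i j = 0 := by
  unfold w
  rw [h, pr_zero_left hα]
  ring

lemma w_zero_right {α : ℝ} (hα : 0 < α) {p : V → ℝ} {j : V} (h : p j = 0) (i : V) :
    w G α p i j = 0 := by
  unfold w
  rw [h, pr_zero_left hα]
  ring

lemma w_nonneg {α : ℝ} {p : V → ℝ} (hp : ∀ i, 0 ≤ p i) (i j : V) : 0 ≤ w G α p i j := by
  have h : ∀ a b : ℝ, 0 ≤ a → 0 ≤ b → 0 ≤ pr α a b := fun a b ha hb => by
    unfold pr
    have := Real.rpow_nonneg ha α
    have := Real.rpow_nonneg hb α
    positivity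
  unfold w A
  refine mul_nonneg ?_ (mul_nonneg (h _ _ (hp i) (hp j)) (h _ _ (hp j) (hp i)))
  split_ifs <;> norm_num

end

end Pool.Agent.KS6_36.Urn
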