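import Pool.Graph.R_seed8.H483R3.Urn.TaskDiag
import Pool.Agent.KS6_36.Urn.Bdry

set_option autoImplicit false

/-!
Diagonalisation of the linear part of the mean field at an equilibrium which may lie on the
boundary and which has an unstable direction.
-/

namespace Pool.Agent.KS6_36.Urn

open H483U

/-- an unstable direction inside the support -/
def Unstable {V : Type} [Fintype V] [DecidableEq V] (G : SimpleGraph V) [DecidableRel G.Adj]
    (α : ℝ) (p : V → ℝ) : Prop :=
  ∃ φ : V → ℝ, (∀ i, p i = 0 → φ i = 0) ∧ ∑ i, p i * φ i ^ 2 <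
    α / NN G * ((1 / 2) * ∑ i, ∑ j, w G α p i j * (φ i - φ j) ^ 2)

theorem diagB {V : Type} [Fintype V] [DecidableEq V] (G : SimpleGraph V) [DecidableRel G.Adj]
    (hN : 1 ≤ NN G) (α : ℝ) (hα : 2 < α) (hgap : Gap G α) (p : V → ℝ) (hpK : p ∈ K G)
    (hp : ∀ i, vf G α p i = 0) (hU : Unstable G α p) :
    ∃ (lam : V → ℝ) (U W : V → V → ℝ) (l₀ : V),
      (∀ l, lam l ≤ -(1 / 2) ∨ 1 ≤ lam l) ∧ 1 ≤ lam l₀ ∧
      (∀ h : V → ℝ, ∀ i, h i = ∑ l, W i l * ∑ j, U l j * h j) ∧
      (∀ y : V → ℝ, ∀ l, y l = ∑ i, U l i * ∑ k, W i k * y k) ∧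
      (∀ (h : V → ℝ) (l : V),
        ∑ i, U l i * (- h i + α / NN G * ∑ j, w G α p i j * (h i / p i - h j / p j)) =
          lam l * ∑ i, U l i * h i) ∧
      0 < ∑ i, ∑ j, w G α p i j * (U l₀ i - U l₀ j) ^ 2 := by
  have hp0 : ∀ i, 0 ≤ p i := hpK.1
  set r : V → ℝ := fun i => if p i = 0 then 1 else Real.sqrt (p i) with hr
  have hr0 : ∀ i, 0 < r i := by
    intro i
    simp only [hr]
    split_ifs with h
    · exact one_pos
    · exact Real.sqrt_pos.2 (lt_of_le_of_ne (hp0 i) (Ne.symm h))
  have hrne : ∀ i, r i ≠ 0 := fun i => (hr0 i).ne'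
  have hrr : ∀ i, p i ≠ 0 → r i * r i = p i := by
    intro i h
    simp only [hr, if_neg h]
    exact Real.mul_self_sqrt (hp0 i)
  set c : ℝ := α / NN G with hc
  have hc0 : 0 < c := div_pos (by linarith) (by linarith)
  set v : V → V → ℝ := fun i j => w G α p i j with hv
  have hvs : ∀ i j, v i j = v j i := fun i j => Diag.w_symm G α p i j
  have hvn : ∀ i j, 0 ≤ v i j := fun i j => w_nonneg G hp0 i j
  have hvl : ∀ i j, p i = 0 → v i j = 0 := fun i j h => w_zero_left G (by linarith) h j
  have hvr : ∀ i j, p j = 0 → v i j = 0 := fun i j h => w_zero_right G (by linarith) h i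
  set S : Matrix V V ℝ := Matrix.of fun i j =>
    -(if i = j then (1 : ℝ) else 0) +
      c * ((if i = j then ∑ m, v i m else 0) - v i j) / (r i * r j) with hSdef
  have hSs : ∀ i j, S i j = S j i := by
    intro i j
    rw [hSdef, Matrix.of_apply, Matrix.of_apply, hvs i j, mul_comm (r i)]
    by_cases h : i = j
    · subst h; rfl
    · rw [if_neg h, if_neg h, if_neg (Ne.symm h), if_neg (Ne.symm h)]
  have hS : S.IsHermitian := by
    ext i j
    rw [Matrix.conjTranspose_apply, star_trivial]
    exact hSs j i
  have hSk : ∀ (k : V → ℝ) (i : V), ∑ j, S i j * k j =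
      -k i + c / r i * ∑ j, v i j * (k i / r i - k j / r j) := by
    intro k i
    have e1 : ∀ j, S i j * k j = -(if i = j then k j else 0) +
        (c / r i * (if i = j then (∑ m, v i m) * (k j / r j) else 0) -
          c / r i * (v i j * (k j / r j))) := by
      intro j
      rw [hSdef, Matrix.of_apply]
      have := hrne i
      have := hrne j
      split_ifs with h
      · field_simp
      · field_simp; ring
    simp_rw [e1]
    rw [Finset.sum_add_distrib, Finset.sum_sub_distrib, Finset.sum_neg_distrib,
      ← Finset.mul_sum, ← Finset.mul_sum]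
    simp only [Finset.sum_ite_eq, Finset.mem_univ, if_true]
    rw [Finset.sum_mul, ← mul_sub, ← Finset.sum_sub_distrib]
    congr 2
    exact Finset.sum_congr rfl fun j _ => by ring
  obtain ⟨lam, g, ho1, ho2, hev⟩ := Diag.core S hS
  -- energy identities for the eigenvectors
  have hφ : ∀ l i, c * ∑ j, v i j * (g l i / r i - g l j / r j) =
      (1 + lam l) * (r i * r i) * (g l i / r i) := by
    intro l i
    have h := hev l i
    rw [hSk] at h
    have h1 : c / r i * ∑ j, v i j * (g l i / r i - g l j / r j) = (1 + lam l) * g l i := by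
      linarith
    have h2 := hrne i
    have h3 : c * ∑ j, v i j * (g l i / r i - g l j / r j) =
        r i * (c / r i * ∑ j, v i j * (g l i / r i - g l j / r j)) := by
      field_simp
    rw [h3, h1]
    field_simp
  have hnorm : ∀ l, ∑ i, (r i * r i) * (g l i / r i) ^ 2 = 1 := by
    intro l
    have h := ho1 l l
    rw [if_pos rfl] at h
    rw [← h]
    refine Finset.sum_congr rfl fun i _ => ?_
    have := hrne i
    field_simp
  have hen : ∀ l, c * (1 / 2 * ∑ i, ∑ j, v i j * (g l i / r i - g l j / r j) ^ 2) =
      1 + lam l := by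
    intro l
    rw [← Diag.energy v hvs, Finset.mul_sum]
    have h1 : ∀ i, c * (g l i / r i * ∑ j, v i j * (g l i / r i - g l j / r j)) =
        (1 + lam l) * ((r i * r i) * (g l i / r i) ^ 2) := by
      intro i
      have := hφ l i
      calc c * (g l i / r i * ∑ j, v i j * (g l i / r i - g l j / r j))
          = (g l i / r i) * (c * ∑ j, v i j * (g l i / r i - g l j / r j)) := by ring
        _ = (1 + lam l) * ((r i * r i) * (g l i / r i) ^ 2) := by rw [this]; ring
    simp_rw [h1]
    rw [← Finset.mul_sum, hnorm, mul_one]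
  have hlam0 : ∀ l, 0 ≤ 1 + lam l := by
    intro l
    rw [← hen l]
    refine mul_nonneg hc0.le (mul_nonneg (by norm_num) ?_)
    exact Finset.sum_nonneg fun i _ => Finset.sum_nonneg fun j _ =>
      mul_nonneg (hvn i j) (sq_nonneg _)
  have hlam : ∀ l, lam l ≤ -(1 / 2) ∨ 1 ≤ lam l := by
    intro l
    by_cases h : 1 ≤ lam l
    · exact Or.inr h
    · left
      push Not at h
      by_cases hex : ∃ i, p i ≠ 0 ∧ g l i / r i ≠ 0
      · have := hgap p hpK hp (1 + lam l) (fun i => g l i / r i) (hlam0 l) (by linarith) hex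
          (fun i hi => by rw [← hrr i hi]; exact hφ l i)
        linarith
      · push Not at hex
        -- the eigenvector lives on the zero set
        obtain ⟨i, hi⟩ : ∃ i, g l i / r i ≠ 0 := by
          by_contra hcon
          push Not at hcon
          have : ∑ i, (r i * r i) * (g l i / r i) ^ 2 = 0 := by
            refine Finset.sum_eq_zero fun i _ => ?_
            rw [hcon i]
            ring
          rw [hnorm] at this
          exact one_ne_zero this
        have hpi : p i = 0 := by
          by_contra hne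
          exact hi (hex i hne)
        have h1 := hφ l i
        have h2 : ∑ j, v i j * (g l i / r i - g l j / r j) = 0 :=
          Finset.sum_eq_zero fun j _ => by rw [hvl i j hpi]; ring
        rw [h2, mul_zero] at h1
        have h3 : (r i * r i) * (g l i / r i) ≠ 0 :=
          mul_ne_zero (mul_ne_zero (hrne i) (hrne i)) hi
        have h4 : 1 + lam l = 0 := by
          rcases mul_eq_zero.1 (by rw [← mul_assoc]; exact h1.symm :
            (1 + lam l) * ((r i * r i) * (g l i / r i)) = 0) with h5 | h5
          · exact h5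
          · exact absurd h5 h3
        linarith
  have hl0 : ∃ l₀, 1 ≤ lam l₀ := by
    by_contra hcon
    push Not at hcon
    have hneg : ∀ l, lam l ≤ -(1 / 2) := fun l => by
      rcases hlam l with h | h
      · exact h
      · exact absurd h (not_le.2 (hcon l))
    obtain ⟨φ, hφ0, hφu⟩ := hU
    have hq : ∑ i, (r i * φ i) * ∑ j, S i j * (r j * φ j) =
        -(∑ i, (r i * r i) * φ i ^ 2) +
          c * (1 / 2 * ∑ i, ∑ j, v i j * (φ i - φ j) ^ 2) := by
      rw [← Diag.energy v hvs, Finset.mul_sum, ← Finset.sum_neg_distrib,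
        ← Finset.sum_add_distrib]
      refine Finset.sum_congr rfl fun i _ => ?_
      rw [hSk (fun j => r j * φ j) i]
      have e : ∀ j, r j * φ j / r j = φ j := fun j => by
        have := hrne j
        field_simp
      simp_rw [e]
      have := hrne i
      field_simp
    have hrp : ∑ i, (r i * r i) * φ i ^ 2 = ∑ i, p i * φ i ^ 2 := by
      refine Finset.sum_congr rfl fun i _ => ?_
      by_cases h : p i = 0
      · rw [hφ0 i h]; ring
      · rw [hrr i h]
    have hpos : 0 < ∑ i, (r i * φ i) * ∑ j, S i j * (r j * φ j) := by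
      rw [hq, hrp]
      linarith
    -- expansion in the eigenbasis
    have hexp : ∀ j, r j * φ j = ∑ l, g l j * ∑ i, g l i * (r i * φ i) := by
      intro j
      simp_rw [Finset.mul_sum]
      rw [Finset.sum_comm]
      have : ∀ i, ∑ l, g l j * (g l i * (r i * φ i)) = (if j = i then 1 else 0) * (r i * φ i) := by
        intro i
        rw [← ho2 j i, Finset.sum_mul]
        exact Finset.sum_congr rfl fun l _ => by ring
      simp_rw [this]
      simp
    have hSx : ∀ i, ∑ j, S i j * (r j * φ j) =
        ∑ l, lam l * g l i * ∑ m, g l m * (r m * φ m) := by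
      intro i
      have : ∀ j, S i j * (r j * φ j) = ∑ l, (S i j * g l j) * ∑ m, g l m * (r m * φ m) := by
        intro j
        conv_lhs => rw [hexp j]
        rw [Finset.mul_sum]
        exact Finset.sum_congr rfl fun l _ => by ring
      simp_rw [this]
      rw [Finset.sum_comm]
      refine Finset.sum_congr rfl fun l _ => ?_
      rw [← Finset.sum_mul, hev l i]
    have hq2 : ∑ i, (r i * φ i) * ∑ j, S i j * (r j * φ j) =
        ∑ l, lam l * (∑ m, g l m * (r m * φ m)) ^ 2 := by
      simp_rw [hSx, Finset.mul_sum]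
      rw [Finset.sum_comm]
      refine Finset.sum_congr rfl fun l _ => ?_
      have : ∀ i, (∑ m, r i * φ i * (lam l * g l i * (g l m * (r m * φ m)))) =
          lam l * (g l i * (r i * φ i)) * ∑ m, g l m * (r m * φ m) := by
        intro i
        rw [Finset.mul_sum]
        exact Finset.sum_congr rfl fun m _ => by ring
      simp_rw [this]
      rw [← Finset.sum_mul, ← Finset.mul_sum]
      ring
    rw [hq2] at hpos
    have hle : ∑ l, lam l * (∑ m, g l m * (r m * φ m)) ^ 2 ≤ 0 :=
      Finset.sum_nonpos fun l _ => mul_nonpos_of_nonpos_of_nonneg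
        (by have := hneg l; linarith) (sq_nonneg _)
    linarith
  obtain ⟨l₀, hl₀⟩ := hl0
  refine ⟨lam, fun l i => g l i / r i, fun i l => r i * g l i, l₀, hlam, hl₀, ?_, ?_, ?_, ?_⟩
  · intro h i
    have e1 : ∀ l, r i * g l i * ∑ j, g l j / r j * h j =
        ∑ j, (g l i * g l j) * (r i * (h j / r j)) := by
      intro l
      rw [Finset.mul_sum]
      exact Finset.sum_congr rfl fun j _ => by ring
    simp_rw [e1]
    rw [Finset.sum_comm]
    have e2 : ∀ j, ∑ l, (g l i * g l j) * (r i * (h j / r j)) =
        (if i = j then 1 else 0) * (r i * (h j / r j)) := by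
      intro j
      rw [← ho2 i j, Finset.sum_mul]
    simp_rw [e2]
    have := hrne i
    simp only [ite_mul, one_mul, zero_mul, Finset.sum_ite_eq, Finset.mem_univ, if_true]
    field_simp
  · intro y l
    have e1 : ∀ i, g l i / r i * ∑ k, r i * g k i * y k = ∑ k, (g l i * g k i) * y k := by
      intro i
      rw [Finset.mul_sum]
      refine Finset.sum_congr rfl fun k _ => ?_
      have := hrne i
      field_simp
    simp_rw [e1]
    rw [Finset.sum_comm]
    have e2 : ∀ k, ∑ i, (g l i * g k i) * y k = (if l = k then 1 else 0) * y k := by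
      intro k
      rw [← ho1 l k, Finset.sum_mul]
    simp_rw [e2]
    simp
  · intro h l
    have e0 : ∀ i, ∑ j, v i j * (h i / p i - h j / p j) =
        ∑ j, v i j * (h i / r i / r i - h j / r j / r j) := by
      intro i
      refine Finset.sum_congr rfl fun j _ => ?_
      by_cases hi : p i = 0
      · rw [hvl i j hi]; ring
      by_cases hj : p j = 0
      · rw [hvr i j hj]; ring
      rw [div_div, div_div, hrr i hi, hrr j hj]
    have e1 : ∀ i, g l i / r i * (-h i + c * ∑ j, v i j * (h i / p i - h j / p j)) =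
        g l i * ∑ j, S i j * (h j / r j) := by
      intro i
      rw [hSk (fun j => h j / r j) i, e0]
      have := hrne i
      field_simp
    have e2 : ∑ i, g l i / r i * (-h i + c * ∑ j, v i j * (h i / p i - h j / p j)) =
        ∑ j, (∑ i, S j i * g l i) * (h j / r j) := by
      simp_rw [e1, Finset.mul_sum, Finset.sum_mul]
      rw [Finset.sum_comm]
      refine Finset.sum_congr rfl fun j _ => Finset.sum_congr rfl fun i _ => ?_
      rw [hSs i j]
      ring
    have e3 : ∑ i, g l i / r i * (-h i + c * ∑ j, v i j * (h i / p i - h j / p j)) =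
        lam l * ∑ i, g l i / r i * h i := by
      rw [e2, Finset.mul_sum]
      refine Finset.sum_congr rfl fun j _ => ?_
      rw [hev l j]
      ring
    exact e3
  · have h := hen l₀
    by_contra hcon
    have h1 : ∑ i, ∑ j, v i j * (g l₀ i / r i - g l₀ j / r j) ^ 2 ≤ 0 := not_lt.1 hcon
    have h2 : c * (1 / 2 * ∑ i, ∑ j, v i j * (g l₀ i / r i - g l₀ j / r j) ^ 2) ≤ 0 :=
      mul_nonpos_of_nonneg_of_nonpos hc0.le (by linarith)
    linarith

end Pool.Agent.KS6_36.Urn
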