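import Pool.Agent.KS6_36.Urn.Region

set_option autoImplicit false

/-!
Existence and uniqueness of the equilibrium of a rising orientation.
-/

namespace Pool.Agent.KS6_36.Urn

open Filter Topology H483U
open scoped NNReal

section
variable {V : Type} [Fintype V] [DecidableEq V] (G : SimpleGraph V) [DecidableRel G.Adj]

/-- the exponent is large -/
structure Large (α : ℝ) : Prop where
  two : 2 < α
  small : rho G ^ α ≤ 1 / (16 * NN G)
  lip : 4 * NN G * (α * rho G ^ (α - 1)) ≤ 1 / 2

lemma reg_unique (hN : 1 ≤ NN G) {s : G.edgeSet → V} (hs : Rising G s) {α : ℝ}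
    (hα : Large G α) {x y : V → ℝ} (hx : x ∈ Reg G s) (hy : y ∈ Reg G s)
    (hfx : ∀ i, FF G α x i = x i) (hfy : ∀ i, FF G α y i = y i) : x = y := by
  have hD : ∀ i, |x i - y i| ≤ ‖x - y‖ := fun i => by
    rw [← Real.norm_eq_abs]; exact norm_le_pi_norm (x - y) i
  have h1 : ‖x - y‖ ≤ 1 / 2 * ‖x - y‖ := by
    rw [pi_norm_le_iff_of_nonneg (by positivity)]
    intro i
    have h2 := reg_lip G hN hs (α := α) (by linarith [hα.two]) hx hy hD i
    rw [hfx, hfy] at h2
    rw [Real.norm_eq_abs, Pi.sub_apply]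
    exact h2.trans (mul_le_mul_of_nonneg_right hα.lip (norm_nonneg _))
  have h2 : ‖x - y‖ = 0 := by linarith [norm_nonneg (x - y)]
  exact sub_eq_zero.1 (norm_eq_zero.1 h2)

/-- the part of the region in which the sources vanish -/
def Reg0 (s : G.edgeSet → V) : Set (V → ℝ) :=
  {x | x ∈ Reg G s ∧ ∀ i, indeg G s i = 0 → x i = 0}

lemma reg_closed (s : G.edgeSet → V) : IsClosed (Reg G s) := by
  have h1 : IsClosed {x : V → ℝ | ∀ i, 0 ≤ x i} := by
    have : {x : V → ℝ | ∀ i, 0 ≤ x i} = ⋂ i, {x | 0 ≤ x i} := by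
      ext x
      simp
    rw [this]
    exact isClosed_iInter (fun i => isClosed_le continuous_const (continuous_apply i))
  have h2 : IsClosed {x : V → ℝ | ∀ i, |x i - vc G s i| ≤ 1 / (4 * NN G)} := by
    have : {x : V → ℝ | ∀ i, |x i - vc G s i| ≤ 1 / (4 * NN G)} =
        ⋂ i, {x | |x i - vc G s i| ≤ 1 / (4 * NN G)} := by
      ext x
      simp
    rw [this]
    exact isClosed_iInter (fun i => isClosed_le
      (((continuous_apply i).sub continuous_const).abs) continuous_const)
  exact h1.inter h2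

lemma reg0_closed (s : G.edgeSet → V) : IsClosed (Reg0 G s) := by
  have h2 : IsClosed {x : V → ℝ | ∀ i, indeg G s i = 0 → x i = 0} := by
    have : {x : V → ℝ | ∀ i, indeg G s i = 0 → x i = 0} =
        ⋂ i, ⋂ (_ : indeg G s i = 0), {x | x i = 0} := by
      ext x
      simp
    rw [this]
    exact isClosed_iInter (fun i => isClosed_iInter fun _ =>
      isClosed_eq (continuous_apply i) continuous_const)
  exact (reg_closed G s).inter h2

lemma vc_mem (hN : 1 ≤ NN G) (s : G.edgeSet → V) : vc G s ∈ Reg0 G s := by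
  have hN0 : 0 < NN G := by linarith
  refine ⟨⟨fun i => ?_, fun i => ?_⟩, fun i hi => ?_⟩
  · unfold vc; positivity
  · rw [sub_self, abs_zero]; positivity
  · unfold vc; rw [hi]; simp

lemma FF_nonneg (hN : 1 ≤ NN G) {α : ℝ} {x : V → ℝ} (hx : ∀ i, 0 ≤ x i) (i : V) :
    0 ≤ FF G α x i := by
  have hN0 : 0 < NN G := by linarith
  unfold FF
  refine mul_nonneg (by positivity) (Finset.sum_nonneg fun j _ => ?_)
  exact mul_nonneg (A_nonneg G i j) (Assembly.pr_nonneg (hx i) (hx j))

lemma FF_maps (hN : 1 ≤ NN G) {s : G.edgeSet → V} (hs : Rising G s) {α : ℝ}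
    (hα : Large G α) {x : V → ℝ} (hx : x ∈ Reg G s) : FF G α x ∈ Reg G s := by
  have hN0 : 0 < NN G := by linarith
  refine ⟨fun i => FF_nonneg G hN hx.1 i, fun i => ?_⟩
  refine (reg_FF G hN hs (by linarith [hα.two]) hx i).trans (hα.small.trans ?_)
  exact one_div_le_one_div_of_le (by positivity) (by linarith)

lemma FF_zero {α : ℝ} (hα : 0 < α) {x : V → ℝ} {i : V} (h : x i = 0) : FF G α x i = 0 := by
  unfold FF
  rw [h]
  simp [pr_zero_left hα]

theorem exists_fixed (hN : 1 ≤ NN G) {s : G.edgeSet → V} (hs : Rising G s) {α : ℝ}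
    (hα : Large G α) : ∃ p ∈ Reg0 G s, ∀ i, FF G α p i = p i := by
  have hmaps : Set.MapsTo (FF G α) (Reg0 G s) (Reg0 G s) := by
    intro x hx
    refine ⟨FF_maps G hN hs hα hx.1, fun i hi => ?_⟩
    exact FF_zero G (by linarith [hα.two]) (hx.2 i hi)
  have hcon : ContractingWith (1 / 2 : ℝ≥0) (hmaps.restrict (FF G α) (Reg0 G s) (Reg0 G s)) := by
    refine ⟨by
      rw [← NNReal.coe_lt_coe]
      push_cast
      norm_num, ?_⟩
    apply LipschitzWith.of_dist_le_mul
    rintro ⟨x, hx⟩ ⟨y, hy⟩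
    rw [Subtype.dist_eq, Subtype.dist_eq, dist_eq_norm, dist_eq_norm]
    simp only [Set.MapsTo.val_restrict_apply]
    push_cast
    rw [pi_norm_le_iff_of_nonneg (by positivity)]
    intro i
    have hD : ∀ i, |x i - y i| ≤ ‖x - y‖ := fun i => by
      rw [← Real.norm_eq_abs]; exact norm_le_pi_norm (x - y) i
    have h2 := reg_lip G hN hs (α := α) (by linarith [hα.two]) hx.1 hy.1 hD i
    rw [Real.norm_eq_abs, Pi.sub_apply]
    exact h2.trans (mul_le_mul_of_nonneg_right hα.lip (norm_nonneg _))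
  obtain ⟨p, hp, hfix, -⟩ := hcon.exists_fixedPoint' (reg0_closed G s).isComplete hmaps
    (vc_mem G hN s) (edist_ne_top _ _)
  exact ⟨p, hp, fun i => congrFun hfix i⟩

/-- the total of the mean field -/
lemma sum_FF (hN : 1 ≤ NN G) {α : ℝ} {x : V → ℝ} (hx : Adm G x) : ∑ i, FF G α x i = 1 := by
  have hN0 : 0 < NN G := by linarith
  unfold FF
  rw [← Finset.mul_sum, UrnB.edge_sum G (fun i j => pr α (x i) (x j)) (fun _ => 1) (by
    intro a b hab
    rw [pr_add (den_pos' (hx.1 a) (hx.1 b) (hx.2 a b hab))]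
    ring)]
  rw [Finset.sum_const, Finset.card_univ, nsmul_eq_mul, mul_one]
  unfold NN at hN0 ⊢
  field_simp

/-- points of the region are admissible -/
lemma reg_adm (hN : 1 ≤ NN G) {s : G.edgeSet → V} (hs : Rising G s) {x : V → ℝ}
    (hx : x ∈ Reg G s) : Adm G x := by
  have hN0 : 0 < NN G := by linarith
  refine ⟨hx.1, fun i j h => ?_⟩
  rcases hd_cases G (fun e => (hs e).1) h with ⟨h1, -, -⟩ | ⟨h1, -, -⟩
  · have h3 := (reg_edge G hN hs hx h h1).1
    have : 0 < 1 / (2 * NN G) := by positivity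
    linarith [hx.1 j]
  · have h3 := (reg_edge G hN hs hx h.symm (by rw [swap_edge G s h]; exact h1)).1
    have : 0 < 1 / (2 * NN G) := by positivity
    linarith [hx.1 i]

/-- some exponent is large and all larger ones are -/
theorem eventually_large (hN : 1 ≤ NN G) : ∀ᶠ α : ℝ in atTop, Large G α := by
  have hN0 : 0 < NN G := by linarith
  have hr := rho_bounds G hN
  have h1 : Tendsto (fun α : ℝ => rho G ^ α) atTop (𝓝 0) :=
    tendsto_rpow_atTop_of_base_lt_one _ (by linarith [hr.1]) hr.2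
  have h2 : Tendsto (fun α : ℝ => α * rho G ^ (α - 1)) atTop (𝓝 0) := by
    have h3 : ∀ α : ℝ, α * rho G ^ (α - 1) =
        (rho G)⁻¹ * (α ^ (1 : ℝ) * Real.exp (-(-Real.log (rho G)) * α)) := by
      intro α
      rw [Real.rpow_sub_one hr.1.ne', Real.rpow_def_of_pos hr.1, Real.rpow_one]
      ring_nf
    simp only [h3]
    have hl : 0 < -Real.log (rho G) := by
      have := Real.log_neg hr.1 hr.2
      linarith
    have := (tendsto_rpow_mul_exp_neg_mul_atTop_nhds_zero 1 _ hl).const_mul (rho G)⁻¹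
    simpa using this
  have h4 : ∀ᶠ α : ℝ in atTop, rho G ^ α < 1 / (16 * NN G) :=
    h1.eventually_lt_const (by positivity)
  have h5 : ∀ᶠ α : ℝ in atTop, 4 * NN G * (α * rho G ^ (α - 1)) < 1 / 2 := by
    have := h2.const_mul (4 * NN G)
    rw [mul_zero] at this
    exact this.eventually_lt_const (by norm_num)
  filter_upwards [h4, h5, eventually_gt_atTop 2] with α ha hb hc
  exact ⟨hc, ha.le, hb.le⟩

end

end Pool.Agent.KS6_36.Urn
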