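import Pool.Graph.R_seed8.H483R3.Urn.TaskDich
import Pool.Agent.KS6_36.Urn.Fixed
import Pool.Agent.KS6_36.Urn.DiagB

set_option autoImplicit false

/-!
For large exponents every equilibrium without unstable direction belongs to a rising orientation.
-/

namespace Pool.Agent.KS6_36.Urn

open Filter Topology H483U

section
variable {V : Type} [Fintype V] [DecidableEq V] (G : SimpleGraph V) [DecidableRel G.Adj]

lemma unstable_of_edge (hN : 1 ≤ NN G) {α w0 : ℝ} (hα : 0 < α) {p : V → ℝ}
    (hp : ∀ i, 0 ≤ p i) (hsum : ∑ i, p i = 1) {i j : V} (hw0 : 0 < w0)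
    (hw : w0 ≤ w G α p i j) (h1 : 1 < α / NN G * w0) : Unstable G α p := by
  have hN0 : 0 < NN G := by linarith
  have hij : i ≠ j := by
    rintro rfl
    have : w G α p i i = 0 := by simp [w, A]
    linarith
  refine ⟨fun k => if k = i then 1 else 0, ?_, ?_⟩
  · intro k hk
    by_cases hki : k = i
    · subst hki
      have := w_zero_left G hα hk j
      linarith
    · simp [hki]
  · have hL : ∑ k, p k * (if k = i then (1 : ℝ) else 0) ^ 2 = p i := by
      rw [Finset.sum_eq_single i]
      · simp
      · intro b _ hb; simp [hb]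
      · intro h; exact absurd (Finset.mem_univ _) h
    have hp1 : p i ≤ 1 := by
      rw [← hsum]; exact Finset.single_le_sum (fun j _ => hp j) (Finset.mem_univ i)
    set f : V → ℝ := fun a => ∑ b, w G α p a b *
      ((if a = i then (1 : ℝ) else 0) - (if b = i then 1 else 0)) ^ 2 with hf
    have hf0 : ∀ a, 0 ≤ f a := fun a => Finset.sum_nonneg fun b _ =>
      mul_nonneg (w_nonneg G hp a b) (sq_nonneg _)
    have hfi : w0 ≤ f i := by
      refine hw.trans ?_
      have : w G α p i j * ((if i = i then (1 : ℝ) else 0) - (if j = i then 1 else 0)) ^ 2 ≤ f i :=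
        Finset.single_le_sum (f := fun b => w G α p i b *
          ((if i = i then (1 : ℝ) else 0) - (if b = i then 1 else 0)) ^ 2)
          (fun b _ => mul_nonneg (w_nonneg G hp i b) (sq_nonneg _)) (Finset.mem_univ j)
      rw [if_pos rfl, if_neg hij.symm] at this
      linarith
    have hfj : w0 ≤ f j := by
      refine hw.trans ?_
      have : w G α p j i * ((if j = i then (1 : ℝ) else 0) - (if i = i then 1 else 0)) ^ 2 ≤ f j :=
        Finset.single_le_sum (f := fun b => w G α p j b *
          ((if j = i then (1 : ℝ) else 0) - (if b = i then 1 else 0)) ^ 2)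
          (fun b _ => mul_nonneg (w_nonneg G hp j b) (sq_nonneg _)) (Finset.mem_univ i)
      rw [if_pos rfl, if_neg hij.symm, Diag.w_symm G α p j i] at this
      linarith
    have h2 : 2 * w0 ≤ ∑ a, f a := by
      have h3 : ∑ a ∈ ({i, j} : Finset V), f a ≤ ∑ a, f a :=
        Finset.sum_le_sum_of_subset_of_nonneg (Finset.subset_univ _) fun a _ _ => hf0 a
      rw [Finset.sum_pair hij] at h3
      linarith
    show ∑ k, p k * (if k = i then (1 : ℝ) else 0) ^ 2 < α / NN G * ((1 / 2) * ∑ a, f a)
    rw [hL]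
    calc p i ≤ 1 := hp1
      _ < α / NN G * w0 := h1
      _ ≤ α / NN G * ((1 / 2) * ∑ a, f a) := by
          apply mul_le_mul_of_nonneg_left _ (by positivity)
          linarith

/-- the orientation of the edges towards the larger coordinate -/
noncomputable def ori (p : V → ℝ) (e : G.edgeSet) : V :=
  if h : ∃ i ∈ (e : Sym2 V), ∀ j ∈ (e : Sym2 V), p j ≤ p i then h.choose
  else (e : Sym2 V).out.1

lemma ori_spec (p : V → ℝ) (e : G.edgeSet) :
    ori G p e ∈ (e : Sym2 V) ∧ ∀ j ∈ (e : Sym2 V), p j ≤ p (ori G p e) := by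
  have h : ∃ i ∈ (e : Sym2 V), ∀ j ∈ (e : Sym2 V), p j ≤ p i := by
    obtain ⟨e, he⟩ := e
    induction e using Sym2.ind with
    | _ a b =>
      rcases le_total (p a) (p b) with hab | hab
      · refine ⟨b, Sym2.mem_mk_right a b, fun j hj => ?_⟩
        rcases Sym2.mem_iff.1 hj with rfl | rfl
        · exact hab
        · exact le_rfl
      · refine ⟨a, Sym2.mem_mk_left a b, fun j hj => ?_⟩
        rcases Sym2.mem_iff.1 hj with rfl | rfl
        · exact le_rfl
        · exact hab
  unfold ori
  rw [dif_pos h]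
  exact h.choose_spec

lemma FF_near (hN : 1 ≤ NN G) {s : G.edgeSet → V} (hs : ∀ e : G.edgeSet, s e ∈ (e : Sym2 V))
    {α M : ℝ} (hM : 0 ≤ M) {x : V → ℝ} (i : V)
    (h : ∀ j, G.Adj i j → |pr α (x i) (x j) - hd G s i j| ≤ M) :
    |FF G α x i - vc G s i| ≤ M := by
  have hN0 : 0 < NN G := by linarith
  have e : FF G α x i - vc G s i =
      (1 / NN G) * ∑ j, A G i j * (pr α (x i) (x j) - hd G s i j) := by
    unfold FF vc
    rw [indeg_eq G hs]
    have : ∑ j, A G i j * (pr α (x i) (x j) - hd G s i j) =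
        ∑ j, A G i j * pr α (x i) (x j) - ∑ j, hd G s i j := by
      rw [← Finset.sum_sub_distrib]
      refine Finset.sum_congr rfl fun j _ => ?_
      by_cases hij : G.Adj i j
      · have : A G i j = 1 := by simp [A, hij]
        rw [this]; ring
      · have : A G i j = 0 := by simp [A, hij]
        rw [this, hd_nonadj G hij]; ring
    rw [this]
    ring
  rw [e]
  exact avg_le G hN i _ _ hM h

/-- an edge with a small weight -/
lemma small_pr {α ε : ℝ} (hα : 0 < α) {p : V → ℝ} (hp : Adm G p) {i j : V} (hij : G.Adj i j)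
    (hle : p j ≤ p i) (hw : w G α p i j ≤ ε) : pr α (p j) (p i) ≤ 2 * ε := by
  have hd := den_pos' (α := α) (hp.1 i) (hp.1 j) (hp.2 i j hij)
  have h1 : pr α (p i) (p j) = 1 - pr α (p j) (p i) := pr_add hd
  have h2 : pr α (p j) (p i) ≤ 1 / 2 := by
    unfold pr
    have h3 : p j ^ α ≤ p i ^ α := Real.rpow_le_rpow (hp.1 j) hle hα.le
    rw [div_le_iff₀ (by linarith)]
    linarith
  have h3 : 0 ≤ pr α (p j) (p i) := Assembly.pr_nonneg (hp.1 j) (hp.1 i)
  have h4 : w G α p i j = pr α (p i) (p j) * pr α (p j) (p i) := by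
    unfold w
    have : A G i j = 1 := by simp [A, hij]
    rw [this, one_mul]
  rw [h4, h1] at hw
  nlinarith

/-- the main step -/
theorem rising_of_small (hN : 1 ≤ NN G) {α ε : ℝ} (hα : 2 < α) (hε : 0 ≤ ε)
    (hεα : 64 * (NN G + 1) * (α * ε) ≤ 1) {p : V → ℝ} (hpK : p ∈ K G)
    (hvf : ∀ i, vf G α p i = 0) (hw : ∀ i j, w G α p i j ≤ ε) :
    Rising G (ori G p) ∧ p ∈ Reg G (ori G p) := by
  have hN0 : 0 < NN G := by linarith
  have hadm := adm_of_K G hpK
  have hmem : ∀ e : G.edgeSet, ori G p e ∈ (e : Sym2 V) := fun e => (ori_spec G p e).1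
  have hle : ∀ i j (h : G.Adj i j), ori G p ⟨s(i, j), (G.mem_edgeSet).2 h⟩ = i → p j ≤ p i := by
    intro i j h hi
    have h1 : p j ≤ p (ori G p ⟨s(i, j), (G.mem_edgeSet).2 h⟩) :=
      (ori_spec G p ⟨s(i, j), (G.mem_edgeSet).2 h⟩).2 j (Sym2.mem_mk_right i j)
    rwa [hi] at h1
  have hprod : 64 * (NN G + 1) * (2 * ε) ≤ 1 := by
    refine le_trans ?_ hεα
    apply mul_le_mul_of_nonneg_left _ (by positivity)
    nlinarith
  have hε1 : ε ≤ 1 / (128 * (NN G + 1)) := by
    rw [le_div_iff₀ (by positivity)]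
    linarith
  have hpr : ∀ i j, G.Adj i j → |pr α (p i) (p j) - hd G (ori G p) i j| ≤ 2 * ε := by
    intro i j h
    rcases hd_cases G hmem h with ⟨h1, h2, -⟩ | ⟨h1, h2, -⟩
    · have h3 := small_pr G (by linarith) hadm h (hle i j h h1) (hw i j)
      rw [h2, pr_add (den_pos' (hadm.1 i) (hadm.1 j) (hadm.2 i j h)),
        show (1 : ℝ) - pr α (p j) (p i) - 1 = -pr α (p j) (p i) by ring, abs_neg,
        abs_of_nonneg (Assembly.pr_nonneg (hadm.1 j) (hadm.1 i))]
      exact h3
    · have h3 := small_pr G (by linarith) hadm h.symm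
        (hle j i h.symm (by rw [swap_edge G (ori G p) h]; exact h1)) (hw j i)
      rw [h2, sub_zero, abs_of_nonneg (Assembly.pr_nonneg (hadm.1 i) (hadm.1 j))]
      exact h3
  have hFF : ∀ i, FF G α p i = p i := by
    intro i
    have := hvf i
    rw [vf_eq] at this
    linarith
  have hnear : ∀ i, |p i - vc G (ori G p) i| ≤ 2 * ε := by
    intro i
    have := FF_near G hN hmem (by linarith : 0 ≤ 2 * ε) i (fun j h => hpr i j h)
    rwa [hFF] at this
  have hmain : ∀ i j (h : G.Adj i j), ori G p ⟨s(i, j), (G.mem_edgeSet).2 h⟩ = i →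
      indeg G (ori G p) j < indeg G (ori G p) i := by
    intro i j h hi
    by_contra hcon
    push Not at hcon
    have hji := hle i j h hi
    have h1 : vc G (ori G p) i ≤ vc G (ori G p) j := by
      unfold vc
      have : (indeg G (ori G p) i : ℝ) ≤ indeg G (ori G p) j := by exact_mod_cast hcon
      gcongr
    have h2 : p i - 4 * ε ≤ p j := by
      have h3 := (abs_le.1 (hnear i)).2
      have h4 := (abs_le.1 (hnear j)).1
      linarith
    have h5 : 1 / (2 * (NN G + 1)) ≤ p i := by
      have h6 := hpK.2.2 i j h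
      have e : 1 / (NN G + 1) = 2 * (1 / (2 * (NN G + 1))) := by field_simp
      linarith
    have hpi : 0 < p i := lt_of_lt_of_le (by positivity) h5
    set t := p j / p i with ht
    have ht0 : 0 ≤ t := div_nonneg (hadm.1 j) hpi.le
    have ht1 : t ≤ 1 := by rw [ht, div_le_one hpi]; exact hji
    set η := 8 * (NN G + 1) * ε with hη
    have hη0 : 0 ≤ η := by positivity
    have h6 : 1 - η ≤ t := by
      rw [ht, le_div_iff₀ hpi]
      have h7 : 4 * ε ≤ η * p i := by
        have h8 : η * (1 / (2 * (NN G + 1))) = 4 * ε := by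
          rw [hη]; field_simp; ring
        rw [← h8]
        exact mul_le_mul_of_nonneg_left h5 hη0
      linarith
    have hαη : α * η ≤ 1 / 8 := by
      have : α * η = (64 * (NN G + 1) * (α * ε)) / 8 := by rw [hη]; ring
      rw [this]
      linarith
    have hη1 : η ≤ 1 / 8 := by nlinarith
    have h7 : 1 / 2 ≤ t ^ α := by
      have h8 := one_add_mul_self_le_rpow_one_add (s := -η) (by linarith) (p := α) (by linarith)
      have h9 : (1 + -η) ^ α ≤ t ^ α := Real.rpow_le_rpow (by linarith) (by linarith) (by linarith)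
      linarith
    have h8 : t ^ α ≤ 1 := Real.rpow_le_one ht0 ht1 (by linarith)
    have h9 := small_pr G (by linarith : 0 < α) hadm h hji (hw i j)
    rw [pr_eq_ratio (hadm.1 j) hpi, ← ht, div_le_iff₀ (by linarith)] at h9
    have h10 : ε ≤ 1 / 128 := by
      refine hε1.trans ?_
      apply one_div_le_one_div_of_le (by norm_num)
      linarith
    nlinarith
  refine ⟨?_, hpK.1, fun i => (hnear i).trans ?_⟩
  · intro e
    refine ⟨hmem e, ?_⟩
    obtain ⟨e, he⟩ := e
    induction e using Sym2.ind with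
    | _ a b =>
      have hab : G.Adj a b := (G.mem_edgeSet).1 he
      intro i hi hne
      have hse := hmem ⟨s(a, b), he⟩
      simp only [Sym2.mem_iff] at hse hi
      rcases hse with h1 | h1
      · rw [h1] at hne ⊢
        rcases hi with h2 | h2
        · exact absurd h2 hne
        · rw [h2]
          exact hmain a b hab h1
      · rw [h1] at hne ⊢
        rcases hi with h2 | h2
        · rw [h2]
          exact hmain b a hab.symm (by rw [swap_edge G (ori G p) hab]; exact h1)
        · exact absurd h2 hne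
  · have e : 1 / (4 * NN G) ≥ 1 / (64 * (NN G + 1)) := by
      apply one_div_le_one_div_of_le (by positivity)
      linarith
    have e2 : 2 * (1 / (128 * (NN G + 1))) = 1 / (64 * (NN G + 1)) := by field_simp; norm_num
    linarith

/-- for large exponents the equilibria without unstable direction are those of the rising
orientations -/
theorem classify (hN : 1 ≤ NN G) : ∀ᶠ α : ℝ in atTop, ∀ p ∈ K G, (∀ i, vf G α p i = 0) →
    ¬ Unstable G α p → ∃ s, Rising G s ∧ p ∈ Reg G s := by
  have hN0 : 0 < NN G := by linarith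
  obtain ⟨w0, c, C, α₁, hw0, hc, hD⟩ := Dich.t V G hN
  have h1 : Tendsto (fun α : ℝ => 64 * (NN G + 1) * (α * (|C| * Real.exp (-(c * α))))) atTop
      (𝓝 0) := by
    have h2 := (tendsto_rpow_mul_exp_neg_mul_atTop_nhds_zero 1 c hc).const_mul
      (64 * (NN G + 1) * |C|)
    rw [mul_zero] at h2
    refine h2.congr fun α => ?_
    rw [Real.rpow_one]
    ring_nf
  have h3 : ∀ᶠ α : ℝ in atTop, 64 * (NN G + 1) * (α * (|C| * Real.exp (-(c * α)))) < 1 :=
    h1.eventually_lt_const one_pos
  have h4 : ∀ᶠ α : ℝ in atTop, 1 < α / NN G * w0 := by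
    filter_upwards [eventually_gt_atTop (NN G / w0)] with α hα
    rw [div_lt_iff₀ hw0] at hα
    rw [div_mul_eq_mul_div, lt_div_iff₀ hN0]
    linarith
  filter_upwards [h3, h4, eventually_ge_atTop α₁, eventually_gt_atTop 2] with α ha hb hc1 hd
  intro p hpK hvf hst
  have hw : ∀ i j, w G α p i j ≤ |C| * Real.exp (-(c * α)) := by
    intro i j
    rcases hD α hc1 p hpK hvf i j with h | h
    · refine h.trans ?_
      exact mul_le_mul_of_nonneg_right (le_abs_self C) (Real.exp_pos _).le
    · exact absurd (unstable_of_edge G hN (by linarith) hpK.1 hpK.2.1 hw0 h hb) hst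
  obtain ⟨h5, h6⟩ := rising_of_small G hN hd (by positivity) ha.le hpK hvf hw
  exact ⟨_, h5, h6⟩

end

end Pool.Agent.KS6_36.Urn
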