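import Pool.Agent.KS6_36.Urn.Region

set_option autoImplicit false

/-!
Rising orientations exist: an orientation with the largest sum of squares of the in-degrees is
rising.
-/

namespace Pool.Agent.KS6_36.Urn

open H483U

section
variable {V : Type} [Fintype V] [DecidableEq V] (G : SimpleGraph V) [DecidableRel G.Adj]

/-- `s` is an orientation -/
def IsOri (s : G.edgeSet → V) : Prop := ∀ e : G.edgeSet, s e ∈ (e : Sym2 V)

/-- the sum of the squares of the in-degrees -/
def sq (s : G.edgeSet → V) : ℕ := ∑ i, indeg G s i ^ 2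

lemma indeg_update (s : G.edgeSet → V) (e : G.edgeSet) (j : V) (hj : j ≠ s e) (i : V) :
    (indeg G (Function.update s e j) i : ℤ) = indeg G s i + (if i = j then 1 else 0) -
      (if i = s e then 1 else 0) := by
  have h1 : ∀ t : G.edgeSet → V, (indeg G t i : ℤ) = ∑ f, if t f = i then (1 : ℤ) else 0 := by
    intro t
    unfold indeg
    rw [Finset.card_filter]
    push_cast
    rfl
  rw [h1, h1]
  have h2 : ∀ f, (if Function.update s e j f = i then (1 : ℤ) else 0) =
      (if s f = i then 1 else 0) + (if f = e then ((if i = j then 1 else 0) -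
        (if i = s e then 1 else 0)) else 0) := by
    intro f
    by_cases hf : f = e
    · subst hf
      rw [Function.update_self, if_pos rfl]
      by_cases h3 : j = i
      · subst h3
        simp [hj, Ne.symm hj]
      · by_cases h4 : s f = i
        · subst h4
          simp [h3, Ne.symm h3]
        · simp [h3, h4, Ne.symm h3, Ne.symm h4]
    · rw [Function.update_of_ne hf, if_neg hf, add_zero]
  simp_rw [h2]
  rw [Finset.sum_add_distrib, Finset.sum_ite_eq' Finset.univ e, if_pos (Finset.mem_univ _)]
  ring

lemma sq_update (s : G.edgeSet → V) (e : G.edgeSet) (j : V) (hj : j ≠ s e) :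
    (sq G (Function.update s e j) : ℤ) = sq G s + 2 * (indeg G s j + 1 - indeg G s (s e)) := by
  have h1 : ∀ t : G.edgeSet → V, (sq G t : ℤ) = ∑ i, (indeg G t i : ℤ) ^ 2 := by
    intro t
    unfold sq
    push_cast
    rfl
  rw [h1, h1]
  have h2 : ∀ i, (indeg G (Function.update s e j) i : ℤ) ^ 2 = (indeg G s i : ℤ) ^ 2 +
      (if i = j then (2 * (indeg G s j : ℤ) + 1) else 0) +
      (if i = s e then (-2 * (indeg G s (s e) : ℤ) + 1) else 0) := by
    intro i
    rw [indeg_update G s e j hj]
    by_cases h3 : i = j
    · subst h3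
      simp only [if_true, if_neg hj]
      ring
    · by_cases h4 : i = s e
      · subst h4
        simp only [if_true, if_neg h3]
        ring
      · simp only [if_neg h3, if_neg h4]
        ring
  simp_rw [h2]
  rw [Finset.sum_add_distrib, Finset.sum_add_distrib, Finset.sum_ite_eq' Finset.univ j,
    Finset.sum_ite_eq' Finset.univ (s e), if_pos (Finset.mem_univ _), if_pos (Finset.mem_univ _)]
  ring

lemma exists_ori : ∃ s : G.edgeSet → V, IsOri G s := by
  refine ⟨fun e => (e : Sym2 V).out.1, fun e => ?_⟩
  exact Sym2.out_fst_mem _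

/-- rising orientations are the local maxima of the sum of squares -/
theorem rising_iff (s : G.edgeSet → V) : Rising G s ↔ IsOri G s ∧
    ∀ (e : G.edgeSet) (j : V), j ∈ (e : Sym2 V) → sq G (Function.update s e j) ≤ sq G s := by
  constructor
  · intro h
    refine ⟨fun e => (h e).1, fun e j hj => ?_⟩
    by_cases hje : j = s e
    · rw [hje, Function.update_eq_self]
    · have h1 := (h e).2 j hj hje
      have h2 := sq_update G s e j hje
      have h3 : (indeg G s j : ℤ) + 1 ≤ indeg G s (s e) := by exact_mod_cast h1
      have h4 : (sq G (Function.update s e j) : ℤ) ≤ sq G s := by linarith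
      exact_mod_cast h4
  · rintro ⟨h1, h2⟩ e
    refine ⟨h1 e, fun j hj hje => ?_⟩
    have h3 := h2 e j hj
    have h4 := sq_update G s e j hje
    have h5 : (sq G (Function.update s e j) : ℤ) ≤ sq G s := by exact_mod_cast h3
    have h6 : (indeg G s j : ℤ) + 1 ≤ indeg G s (s e) := by linarith
    have h7 : indeg G s j + 1 ≤ indeg G s (s e) := by exact_mod_cast h6
    exact h7

theorem exists_rising : ∃ s : G.edgeSet → V, Rising G s := by
  classical
  set T : Finset (G.edgeSet → V) := Finset.univ.filter (fun s => IsOri G s) with hT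
  have hne : T.Nonempty := by
    obtain ⟨s, hs⟩ := exists_ori G
    exact ⟨s, by simp [hT, hs]⟩
  obtain ⟨s, hs, hmax⟩ := Finset.exists_max_image T (sq G) hne
  have hs' : IsOri G s := by simpa [hT] using hs
  refine ⟨s, (rising_iff G s).2 ⟨hs', fun e j hj => hmax _ ?_⟩⟩
  simp only [hT, Finset.mem_filter, Finset.mem_univ, true_and]
  intro f
  by_cases hf : f = e
  · subst hf
    rw [Function.update_self]
    exact hj
  · rw [Function.update_of_ne hf]
    exact hs' f

/-- a rising orientation of a graph with a vertex has a vertex with in-degree zero -/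
theorem exists_source [Nonempty V] {s : G.edgeSet → V} (hs : Rising G s) :
    ∃ i, indeg G s i = 0 := by
  obtain ⟨i, -, hmin⟩ := Finset.exists_min_image (Finset.univ : Finset V) (indeg G s)
    Finset.univ_nonempty
  refine ⟨i, ?_⟩
  by_contra hne
  have h1 : 0 < (Finset.univ.filter (fun e : G.edgeSet => s e = i)).card := by
    unfold indeg at hne
    omega
  obtain ⟨e, he⟩ := Finset.card_pos.1 h1
  have he' : s e = i := by simpa using he
  obtain ⟨h2, h3⟩ := hs e
  obtain ⟨j, hj, hji⟩ : ∃ j ∈ (e : Sym2 V), j ≠ s e := by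
    obtain ⟨e, hee⟩ := e
    induction e using Sym2.ind with
    | _ a b =>
      have hab : G.Adj a b := (G.mem_edgeSet).1 hee
      by_cases h : a = s ⟨s(a, b), hee⟩
      · exact ⟨b, Sym2.mem_mk_right a b, by rw [← h]; exact hab.ne.symm⟩
      · exact ⟨a, Sym2.mem_mk_left a b, h⟩
  have h4 := h3 j hj hji
  rw [he'] at h4
  exact absurd (hmin j (Finset.mem_univ j)) (not_le.2 h4)

end

end Pool.Agent.KS6_36.Urn
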