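import Pool.Graph.R_seed8.H483R3.Urn.Int
import Pool.Agent.KS6_36.Urn.DiagB

set_option autoImplicit false

/-!
Nonconvergence of the urn to unstable equilibria, interior or on the boundary.
-/

namespace Pool.Agent.KS6_36.Urn

open MeasureTheory ProbabilityTheory Filter Topology H483U

/-- no convergence to unstable equilibria, also on the boundary -/
theorem nonconv (hNC : NonConv) (V : Type) [Fintype V] [DecidableEq V] (G : SimpleGraph V)
    [DecidableRel G.Adj] (hN : 1 ≤ NN G) (α : ℝ) (hα : 2 < α) (hgap : Gap G α)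
    (Ω : Type) (mΩ : MeasurableSpace Ω) (μ : Measure Ω) (hμ : IsProbabilityMeasure μ)
    (ℱ : Filtration ℕ mΩ) (c0 : ℝ) (x ξ : ℕ → Ω → V → ℝ)
    (hSA : SA G α μ ℱ c0 x ξ) (p : V → ℝ) (hpK : p ∈ K G) (hvf : ∀ i, vf G α p i = 0)
    (hU : Unstable G α p) :
    ∀ᵐ ω ∂μ, ¬ Tendsto (fun n => x n ω) atTop (𝓝 p) := by
  obtain ⟨lam, U, W, l₀, hlam, hl0, hWU, hUW, heig, hvarpos⟩ :=
    diagB G hN α hα hgap p hpK hvf hU
  have hadm := adm_of_K G hpK
  obtain ⟨C, ρ, hρ, hTay⟩ := taylor G α hα p hadm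
  set MU : ℝ := ∑ l, ∑ i, |U l i| with hMU
  set MW : ℝ := ∑ i, ∑ l, |W i l| with hMW
  have hMU0 : 0 ≤ MU := Finset.sum_nonneg fun _ _ => Finset.sum_nonneg fun _ _ => abs_nonneg _
  have hMW0 : 0 ≤ MW := Finset.sum_nonneg fun _ _ => Finset.sum_nonneg fun _ _ => abs_nonneg _
  have hUl : ∀ l, ∑ i, |U l i| ≤ MU := fun l =>
    Finset.single_le_sum (f := fun l => ∑ i, |U l i|)
      (fun _ _ => Finset.sum_nonneg fun _ _ => abs_nonneg _) (Finset.mem_univ l)
  have hWl : ∀ i, ∑ l, |W i l| ≤ MW := fun i =>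
    Finset.single_le_sum (f := fun i => ∑ l, |W i l|)
      (fun _ _ => Finset.sum_nonneg fun _ _ => abs_nonneg _) (Finset.mem_univ i)
  -- the variance function
  set Vf : (V → ℝ) → ℝ := fun z => 1 / (2 * NN G ^ 2) *
    ∑ i, ∑ j, w G α z i j * (U l₀ i - U l₀ j) ^ 2 with hVf
  have hN0 : 0 < NN G := by linarith
  have hVfp : 0 < Vf p := by
    simp only [hVf]; positivity
  have hVfc : ContinuousAt Vf p := by
    simp only [hVf]
    refine continuousAt_const.mul ?_
    refine tendsto_finsetSum _ fun i _ => tendsto_finsetSum _ fun j _ => ?_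
    exact (w_cont G α (by linarith) p hadm i j).mul continuousAt_const
  obtain ⟨ρ2, hρ2, hV2⟩ : ∃ ρ2 > 0, ∀ z : V → ℝ, ‖z - p‖ < ρ2 → Vf p / 2 < Vf z := by
    have := hVfc.eventually (lt_mem_nhds (by linarith : Vf p / 2 < Vf p))
    obtain ⟨r, hr, h⟩ := Metric.eventually_nhds_iff.mp this
    exact ⟨r, hr, fun z hz => h (by rwa [dist_eq_norm])⟩
  set ρ' : ℝ := min ρ ρ2 / (2 * (MW + 1)) with hρ'
  have hρ'0 : 0 < ρ' := by
    have : 0 < min ρ ρ2 := lt_min hρ hρ2
    positivity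
  have hρ'2 : MW * ρ' < min ρ ρ2 := by
    have h0 : 0 < min ρ ρ2 := lt_min hρ hρ2
    rw [hρ', mul_div_assoc', div_lt_iff₀ (by positivity)]
    nlinarith
  set y : ℕ → Ω → V → ℝ := fun n ω l => ∑ i, U l i * (x n ω i - p i) with hy
  set ζ : ℕ → Ω → V → ℝ := fun n ω l => ∑ i, U l i * ξ n ω i with hζ
  set R : ℕ → Ω → V → ℝ := fun n ω l => ∑ i, U l i * vf G α (x n ω) i - lam l * y n ω l with hR
  set C' : ℝ := MU * (|C| * MW ^ 2) + MU + 1 with hC'
  have hC'0 : 0 < C' := by positivity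
  -- the inverse bound
  have hinv : ∀ n ω, ‖x n ω - p‖ ≤ MW * ‖y n ω‖ := by
    intro n ω
    rw [pi_norm_le_iff_of_nonneg (by positivity)]
    intro i
    have h1 := hWU (fun j => x n ω j - p j) i
    have h2 : |∑ l, W i l * y n ω l| ≤ (∑ l, |W i l|) * ‖y n ω‖ :=
      Int.sum_abs_le _ _ _ fun l => by rw [← Real.norm_eq_abs]; exact norm_le_pi_norm _ l
    have h3 : (x n ω - p) i = ∑ l, W i l * y n ω l := h1
    rw [h3, Real.norm_eq_abs]
    exact h2.trans (mul_le_mul_of_nonneg_right (hWl i) (norm_nonneg _))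
  have hmain := hNC V lam l₀ hlam hl0 Ω mΩ μ hμ ℱ c0 C' ρ' (Vf p / 2) y ζ R hSA.c0pos hC'0 hρ'0
    (by linarith) ?_ ?_ ?_ ?_ ?_ ?_ ?_
  · filter_upwards [hmain] with ω hω hx
    apply hω
    rw [tendsto_pi_nhds] at hx ⊢
    intro l
    have h1 : Tendsto (fun n => ∑ i, U l i * (x n ω i - p i)) atTop
        (𝓝 (∑ i, U l i * (p i - p i))) :=
      tendsto_finsetSum _ fun i _ => ((hx i).sub tendsto_const_nhds).const_mul _
    simpa using h1
  · intro n ω l
    have h1 : y (n + 1) ω l = y n ω l + 1 / (n + c0) *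
        (∑ i, U l i * vf G α (x n ω) i + ∑ i, U l i * ξ n ω i) := by
      simp only [hy]
      rw [← Finset.sum_add_distrib, Finset.mul_sum, ← Finset.sum_add_distrib]
      refine Finset.sum_congr rfl fun i _ => ?_
      rw [hSA.step n ω i]; ring
    rw [h1]
    simp only [hR, hζ]
    ring
  · intro n ω l hyn
    have hh : ‖x n ω - p‖ ≤ ρ := by
      have h1 := hinv n ω
      have h2 : MW * ‖y n ω‖ ≤ MW * ρ' := mul_le_mul_of_nonneg_left hyn hMW0
      exact (h1.trans h2).trans (hρ'2.le.trans (min_le_left _ _))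
    have hT := hTay (x n ω) (fun i => (hSA.pos n ω i).le) hh
    have hRe : R n ω l = ∑ i, U l i * (vf G α (x n ω) i - vf G α p i -
        (-(x n ω i - p i) + α / NN G * ∑ j, w G α p i j *
          ((x n ω i - p i) / p i - (x n ω j - p j) / p j))) := by
      have he := heig (fun i => x n ω i - p i) l
      simp only [hR]
      have : ∑ i, U l i * (vf G α (x n ω) i - vf G α p i -
        (-(x n ω i - p i) + α / NN G * ∑ j, w G α p i j *
          ((x n ω i - p i) / p i - (x n ω j - p j) / p j))) =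
          ∑ i, U l i * vf G α (x n ω) i -
          ∑ i, U l i * (-(x n ω i - p i) + α / NN G * ∑ j, w G α p i j *
          ((x n ω i - p i) / p i - (x n ω j - p j) / p j)) := by
        rw [← Finset.sum_sub_distrib]
        refine Finset.sum_congr rfl fun i _ => ?_
        rw [hvf i]; ring
      rw [this, he]
    rw [hRe]
    have h2 : ∀ i, |vf G α (x n ω) i - vf G α p i -
        (-(x n ω i - p i) + α / NN G * ∑ j, w G α p i j *
          ((x n ω i - p i) / p i - (x n ω j - p j) / p j))| ≤ |C| * (MW ^ 2 * ‖y n ω‖ ^ 2) := by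
      intro i
      refine (hT i).trans ?_
      have h3 : ‖x n ω - p‖ ^ 2 ≤ (MW * ‖y n ω‖) ^ 2 :=
        pow_le_pow_left₀ (norm_nonneg _) (hinv n ω) 2
      calc C * ‖x n ω - p‖ ^ 2 ≤ |C| * ‖x n ω - p‖ ^ 2 := by
            apply mul_le_mul_of_nonneg_right (le_abs_self C) (by positivity)
        _ ≤ |C| * (MW * ‖y n ω‖) ^ 2 := by gcongr
        _ = |C| * (MW ^ 2 * ‖y n ω‖ ^ 2) := by ring
    refine (Int.sum_abs_le _ _ _ h2).trans ?_
    calc (∑ i, |U l i|) * (|C| * (MW ^ 2 * ‖y n ω‖ ^ 2))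
        ≤ MU * (|C| * (MW ^ 2 * ‖y n ω‖ ^ 2)) := by
          apply mul_le_mul_of_nonneg_right (hUl l) (by positivity)
      _ = MU * (|C| * MW ^ 2) * ‖y n ω‖ ^ 2 := by ring
      _ ≤ C' * ‖y n ω‖ ^ 2 := by
          apply mul_le_mul_of_nonneg_right _ (by positivity)
          rw [hC']; linarith
  · intro n l
    simp only [hy]
    refine Finset.measurable_fun_sum _ fun i _ => ?_
    exact ((hSA.xmeas n i).sub_const _).const_mul _
  · intro n l
    simp only [hζ]
    refine Finset.measurable_fun_sum _ fun i _ => ?_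
    exact (hSA.ξmeas n i).const_mul _
  · intro n ω l
    refine (Int.sum_abs_le _ _ 1 fun i => hSA.bound n ω i).trans ?_
    have := hUl l
    have h3 : 0 ≤ MU * (|C| * MW ^ 2) := by positivity
    rw [hC']; linarith
  · intro n l
    have hint : ∀ i, Integrable (fun ω => ξ n ω i) μ := by
      intro i
      refine Integrable.of_bound (C := 1) ?_ (Eventually.of_forall fun ω => ?_)
      · exact ((hSA.ξmeas n i).mono (ℱ.le (n + 1)) le_rfl).aestronglyMeasurable
      · rw [Real.norm_eq_abs]; exact hSA.bound n ω i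
    have h1 : μ[fun ω => ζ n ω l | ℱ n] =ᵐ[μ] ∑ i, μ[fun ω => U l i * ξ n ω i | ℱ n] := by
      have h2 : (fun ω => ζ n ω l) = ∑ i, fun ω => U l i * ξ n ω i := by
        ext ω; simp [hζ, Finset.sum_apply]
      rw [h2]
      exact condExp_finsetSum (fun i _ => (hint i).const_mul _) _
    have h3 : ∀ i, μ[fun ω => U l i * ξ n ω i | ℱ n] =ᵐ[μ] 0 := by
      intro i
      have h4 := condExp_smul (μ := μ) (m := ℱ n) (U l i) (fun ω => ξ n ω i)
      have h5 : (fun ω => U l i * ξ n ω i) = (U l i) • (fun ω => ξ n ω i) := by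
        ext ω; simp
      rw [h5]
      filter_upwards [h4, hSA.mean n i] with ω ha hb
      rw [ha]; simp [hb]
    have h6 : ∀ᵐ ω ∂μ, ∀ i, (μ[fun ω => U l i * ξ n ω i | ℱ n]) ω = 0 := by
      rw [ae_all_iff]; intro i; exact h3 i
    filter_upwards [h1, h6] with ω ha hb
    rw [ha, Finset.sum_apply]
    simp [hb]
  · intro n
    filter_upwards [hSA.var n (U l₀)] with ω hω hyn
    have h1 : ‖x n ω - p‖ < ρ2 := by
      have h1 := hinv n ω
      have h2 : MW * ‖y n ω‖ ≤ MW * ρ' := mul_le_mul_of_nonneg_left hyn.le hMW0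
      exact (h1.trans h2).trans_lt (hρ'2.trans_le (min_le_right _ _))
    have h2 := hV2 _ h1
    have h3 : (μ[fun ω => (ζ n ω l₀) ^ 2 | ℱ n]) ω = Vf (x n ω) := hω
    rw [h3]; exact h2.le

end Pool.Agent.KS6_36.Urn
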