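import Pool.Agent.KS6_36.Urn.Stay

set_option autoImplicit false

/-!
With positive probability the urn stays in the region of a rising orientation: conclusion.
-/

namespace Pool.Agent.KS6_36.Urn

open MeasureTheory ProbabilityTheory Filter Topology H483U

section Mart

variable {Ω : Type} [mΩ : MeasurableSpace Ω] {μ : Measure Ω} [IsProbabilityMeasure μ]
  {ℱ : Filtration ℕ mΩ}

theorem stay {ι : Type} [Fintype ι] (ζ : ι → ℕ → Ω → ℝ)
    (hζ : ∀ i n, Measurable[ℱ (n + 1)] (ζ i n)) (hb : ∀ i n ω, |ζ i n ω| ≤ 1)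
    (hm : ∀ i n, μ[ζ i n | ℱ n] =ᵐ[μ] 0) (ε : ℝ) (hε : 0 < ε) :
    ∀ᶠ m : ℕ in atTop, ∀ H : Set Ω, MeasurableSet[ℱ (m ^ 2)] H → 0 < μ H →
      0 < μ {ω | ω ∈ H ∧ ∀ i, ∀ n, m ^ 2 ≤ n → |PS (ζ i) (m ^ 2) n ω| ≤ ε * n} := by
  have hsum : Summable (fun k : ℕ => 1 / ((k : ℝ)) ^ 2) :=
    Real.summable_one_div_nat_pow.2 (by norm_num)
  set Kc : ℝ := Fintype.card ι * (4 / ε ^ 2) with hKc
  have htail : Tendsto (fun m : ℕ => Kc * ∑' k : ℕ, 1 / (((k + m : ℕ) : ℝ)) ^ 2) atTop (𝓝 0) := by
    have := (tendsto_sum_nat_add (fun k : ℕ => 1 / ((k : ℝ)) ^ 2)).const_mul Kc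
    simpa using this
  have hev : ∀ᶠ m : ℕ in atTop, Kc * ∑' k : ℕ, 1 / (((k + m : ℕ) : ℝ)) ^ 2 < 1 :=
    htail.eventually_lt_const one_pos
  filter_upwards [hev, eventually_ge_atTop 1, eventually_ge_atTop (⌈6 / ε⌉₊)] with m h1 h2 h3
  intro H hH hpos
  have hHm : MeasurableSet H := ℱ.le _ _ hH
  have hm1 : (1 : ℝ) ≤ m := by exact_mod_cast h2
  have hm6 : 6 / ε ≤ m := (Nat.le_ceil _).trans (by exact_mod_cast h3)
  set a := m ^ 2 with ha
  set nk : ℕ → ℕ := fun k => (k + m) ^ 2 with hnk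
  have hank : ∀ k, a ≤ nk k := fun k => Nat.pow_le_pow_left (Nat.le_add_left m k) 2
  set bad : ι → ℕ → Set Ω := fun i k => {ω | ω ∈ H ∧ ε / 2 * nk k ≤ |PS (ζ i) a (nk k) ω|}
    with hbad
  have hkm : ∀ k : ℕ, (0 : ℝ) < ((k + m : ℕ) : ℝ) := fun k => by
    have : 0 < k + m := by omega
    exact_mod_cast this
  have hbadr : ∀ i k, μ.real (bad i k) ≤ 4 / ε ^ 2 * (1 / (((k + m : ℕ) : ℝ)) ^ 2) * μ.real H := by
    intro i k
    have hn0 : (0 : ℝ) < nk k := by
      rw [hnk]
      simp only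
      have := hkm k
      push_cast at this ⊢
      positivity
    refine (cheb (hζ i) (hb i) (hm i) hH (nk k) (hank k) (by positivity)).trans (le_of_eq ?_)
    have e : (nk k : ℝ) = (((k + m : ℕ) : ℝ)) ^ 2 := by rw [hnk]; push_cast; ring
    rw [e]
    have := (hkm k).ne'
    field_simp
    ring
  have hH0 : 0 < μ.real H := by
    rw [measureReal_def]
    exact ENNReal.toReal_pos hpos.ne' (measure_ne_top _ _)
  have hbadU : μ (⋃ i, ⋃ k, bad i k) < μ H := by
    have e1 : ∀ i, μ (⋃ k, bad i k) ≤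
        ENNReal.ofReal (∑' k, 4 / ε ^ 2 * (1 / (((k + m : ℕ) : ℝ)) ^ 2) * μ.real H) := by
      intro i
      refine (measure_iUnion_le _).trans ?_
      rw [ENNReal.ofReal_tsum_of_nonneg]
      · refine ENNReal.tsum_le_tsum fun k => ?_
        rw [← ENNReal.ofReal_toReal (measure_ne_top μ (bad i k))]
        exact ENNReal.ofReal_le_ofReal (hbadr i k)
      · intro k; positivity
      · refine Summable.mul_right _ (Summable.mul_left _ ?_)
        exact (summable_nat_add_iff m).2 hsum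
    calc μ (⋃ i, ⋃ k, bad i k) ≤ ∑ i, μ (⋃ k, bad i k) := by
          refine (measure_iUnion_le _).trans (le_of_eq ?_)
          exact tsum_fintype _
      _ ≤ ∑ i : ι, ENNReal.ofReal
          (∑' k, 4 / ε ^ 2 * (1 / (((k + m : ℕ) : ℝ)) ^ 2) * μ.real H) :=
          Finset.sum_le_sum fun i _ => e1 i
      _ = ENNReal.ofReal (Fintype.card ι *
          ∑' k, 4 / ε ^ 2 * (1 / (((k + m : ℕ) : ℝ)) ^ 2) * μ.real H) := by
          rw [Finset.sum_const, Finset.card_univ, nsmul_eq_mul,
            ENNReal.ofReal_mul (by positivity)]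
          congr 1
          simp
      _ < ENNReal.ofReal (μ.real H) := by
          rw [ENNReal.ofReal_lt_ofReal_iff hH0, tsum_mul_right, tsum_mul_left]
          have : (Fintype.card ι : ℝ) * ((4 / ε ^ 2 * ∑' k : ℕ, 1 / (((k + m : ℕ) : ℝ)) ^ 2) *
              μ.real H) = (Kc * ∑' k : ℕ, 1 / (((k + m : ℕ) : ℝ)) ^ 2) * μ.real H := by
            rw [hKc]; ring
          rw [this]
          nlinarith
      _ = μ H := ENNReal.ofReal_toReal (measure_ne_top _ _)
  have hgood : 0 < μ (H \ ⋃ i, ⋃ k, bad i k) := by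
    have h4 : μ H ≤ μ (H \ ⋃ i, ⋃ k, bad i k) + μ (⋃ i, ⋃ k, bad i k) := by
      refine le_trans (measure_mono ?_) (measure_union_le _ _)
      intro ω hω
      by_cases h : ω ∈ ⋃ i, ⋃ k, bad i k
      · exact Or.inr h
      · exact Or.inl ⟨hω, h⟩
    by_contra hcon
    have h5 : μ (H \ ⋃ i, ⋃ k, bad i k) = 0 := by
      rw [not_lt] at hcon
      exact le_antisymm hcon zero_le
    rw [h5, zero_add] at h4
    exact absurd hbadU (not_lt.2 h4)
  refine lt_of_lt_of_le hgood (measure_mono ?_)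
  rintro ω ⟨hω, hnb⟩
  refine ⟨hω, fun i n hn => ?_⟩
  set r := Nat.sqrt n with hr
  have hmr : m ≤ r := by
    rw [hr, Nat.le_sqrt]
    calc m * m = m ^ 2 := by ring
      _ ≤ n := hn
  have hrn : r ^ 2 ≤ n := by rw [hr]; exact Nat.sqrt_le' n
  have hrn2 : n < (r + 1) ^ 2 := by rw [hr]; exact Nat.lt_succ_sqrt' n
  have hnotbad : ¬ (ε / 2 * ((r ^ 2 : ℕ) : ℝ) ≤ |PS (ζ i) a (r ^ 2) ω|) := by
    intro hcon
    apply hnb
    rw [Set.mem_iUnion]
    refine ⟨i, ?_⟩
    rw [Set.mem_iUnion]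
    refine ⟨r - m, hω, ?_⟩
    have : nk (r - m) = r ^ 2 := by rw [hnk]; simp only; rw [Nat.sub_add_cancel hmr]
    rw [this]
    exact hcon
  push Not at hnotbad
  have har : a ≤ r ^ 2 := Nat.pow_le_pow_left hmr 2
  have h5 := ps_diff (hb i) har hrn ω
  have h6 : (n : ℝ) ≤ (r : ℝ) ^ 2 + 2 * r := by
    have : n ≤ r ^ 2 + 2 * r := by
      have := Nat.lt_succ_iff.1 (show n < (r ^ 2 + 2 * r) + 1 by
        calc n < (r + 1) ^ 2 := hrn2
          _ = (r ^ 2 + 2 * r) + 1 := by ring)
      exact this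
    exact_mod_cast this
  have h7 : (m : ℝ) ≤ r := by exact_mod_cast hmr
  have h8 : 2 * (r : ℝ) ≤ ε / 2 * (r : ℝ) ^ 2 := by
    have h9 : 6 ≤ ε * r := by
      have : 6 / ε ≤ r := hm6.trans h7
      rw [div_le_iff₀ hε] at this
      linarith
    have h10 : (0 : ℝ) ≤ r := by positivity
    nlinarith
  have h9 : (r : ℝ) ^ 2 ≤ n := by exact_mod_cast hrn
  push_cast at hnotbad h5
  nlinarith

end Mart

section UrnPart

variable {V : Type} [Fintype V] [DecidableEq V] (G : SimpleGraph V) [DecidableRel G.Adj]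
variable {Ω : Type} [mΩ : MeasurableSpace Ω] {μ : Measure Ω} [IsProbabilityMeasure μ]
  {ℱ : Filtration ℕ mΩ} {c : ℕ → Ω → G.edgeSet → V} {α : ℝ} {B0 : V → ℕ}

/-- the first `n` steps follow `s` -/
def Follow (c : ℕ → Ω → G.edgeSet → V) (s : G.edgeSet → V) (n : ℕ) : Set Ω :=
  {ω | ∀ k, k < n → c k ω = s}

lemma follow_succ (s : G.edgeSet → V) (n : ℕ) :
    Follow G c s (n + 1) = Follow G c s n ∩ {ω | c n ω = s} := by
  ext ω
  simp only [Follow, Set.mem_setOf_eq, Set.mem_inter_iff]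
  constructor
  · intro h
    exact ⟨fun k hk => h k (by omega), h n (by omega)⟩
  · rintro ⟨h1, h2⟩ k hk
    rcases Nat.lt_succ_iff_lt_or_eq.1 hk with h | h
    · exact h1 k h
    · rw [h]; exact h2

lemma step_meas (hU : IsUrn G α B0 μ ℱ c) (n : ℕ) (s : G.edgeSet → V) :
    MeasurableSet[ℱ (n + 1)] {ω | c n ω = s} := by
  have : {ω | c n ω = s} = ⋂ e : G.edgeSet, {ω | c n ω e = s e} := by
    ext ω
    rw [Set.mem_iInter]
    exact funext_iff
  rw [this]
  exact MeasurableSet.iInter fun e => hU.meas n e (s e)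

lemma follow_meas (hU : IsUrn G α B0 μ ℱ c) (s : G.edgeSet → V) (n : ℕ) :
    MeasurableSet[ℱ n] (Follow G c s n) := by
  induction n with
  | zero =>
    have : Follow G c s 0 = Set.univ := by
      ext ω; simp [Follow]
    rw [this]
    exact MeasurableSet.univ
  | succ n ih =>
    rw [follow_succ]
    exact MeasurableSet.inter (ℱ.mono (Nat.le_succ n) _ ih) (step_meas G hU n s)

lemma follow_pos (hU : IsUrn G α B0 μ ℱ c) (hB : ∀ i, 1 ≤ B0 i) (s : G.edgeSet → V)
    (hs : ∀ e : G.edgeSet, s e ∈ (e : Sym2 V)) (n : ℕ) : 0 < μ (Follow G c s n) := by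
  induction n with
  | zero =>
    have : Follow G c s 0 = Set.univ := by
      ext ω; simp [Follow]
    rw [this]
    simp
  | succ n ih =>
    have hFm : MeasurableSet (Follow G c s n) := ℱ.le n _ (follow_meas G hU s n)
    have hSm : MeasurableSet {ω | c n ω = s} := ℱ.le (n + 1) _ (step_meas G hU n s)
    set f : Ω → ℝ := fun ω => ∏ e : G.edgeSet, (balls G B0 c n ω (s e) : ℝ) ^ α /
        ∑ k ∈ (e : Sym2 V).toFinset, (balls G B0 c n ω k : ℝ) ^ α with hf
    have hfpos : ∀ ω, 0 < f ω := by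
      intro ω
      refine Finset.prod_pos fun e _ => ?_
      have hb := UrnB.balls_pos G (c := c) hB n ω
      exact div_pos (UrnB.Pe_pos hb _) (UrnB.sum_pos' hb _)
    have hlaw := hU.law n s hs
    have hfi : Integrable f μ := integrable_condExp.congr hlaw
    have hIi : Integrable (Set.indicator {ω | c n ω = s} (fun _ => (1 : ℝ))) μ :=
      (integrable_const (1 : ℝ)).indicator hSm
    have h1 : ∫ ω in Follow G c s n, Set.indicator {ω | c n ω = s} (fun _ => (1 : ℝ)) ω ∂μ =
        ∫ ω in Follow G c s n, f ω ∂μ := by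
      rw [← setIntegral_condExp (ℱ.le n) hIi (follow_meas G hU s n)]
      exact integral_congr_ae (ae_restrict_of_ae hlaw)
    have h2 : 0 < ∫ ω in Follow G c s n, f ω ∂μ := by
      rw [integral_pos_iff_support_of_nonneg (fun ω => (hfpos ω).le) hfi.integrableOn]
      have : Function.support f = Set.univ := by
        ext ω; simp [(hfpos ω).ne']
      rw [this, Measure.restrict_apply_univ]
      exact ih
    rw [follow_succ]
    have h3 : ∫ ω in Follow G c s n, Set.indicator {ω | c n ω = s} (fun _ => (1 : ℝ)) ω ∂μ =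
        μ.real (Follow G c s n ∩ {ω | c n ω = s}) := by
      rw [setIntegral_indicator hSm]
      simp
    rw [h3] at h1
    rw [h1.symm] at h2
    by_contra hcon
    have h4 : μ (Follow G c s n ∩ {ω | c n ω = s}) = 0 := by
      rw [not_lt] at hcon
      exact le_antisymm hcon zero_le
    rw [measureReal_def, h4] at h2
    simp at h2

lemma balls_step (hN : 1 ≤ NN G) (n : ℕ) (ω : Ω) (i : V) :
    (balls G B0 c (n + 1) ω i : ℝ) = balls G B0 c n ω i +
      NN G * (FF G α (xx G B0 c n ω) i + xi G α B0 c n ω i) := by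
  have hN0 : NN G ≠ 0 := by linarith
  rw [UrnA.balls_succ]
  push_cast
  unfold FF xi
  field_simp
  ring

lemma balls_follow {s : G.edgeSet → V} {n : ℕ} {ω : Ω} (h : ω ∈ Follow G c s n) (i : V) :
    balls G B0 c n ω i = B0 i + n * indeg G s i := by
  induction n with
  | zero => simp [balls]
  | succ n ih =>
    rw [follow_succ] at h
    rw [UrnA.balls_succ, ih h.1]
    have : c n ω = s := h.2
    unfold indeg
    rw [this]
    ring

lemma balls_formula (hN : 1 ≤ NN G) {a : ℕ} (n : ℕ) (han : a ≤ n) (ω : Ω) (i : V) :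
    (balls G B0 c n ω i : ℝ) = balls G B0 c a ω i +
      NN G * (∑ k ∈ Finset.Ico a n, FF G α (xx G B0 c k ω) i +
        PS (fun k ω => xi G α B0 c k ω i) a n ω) := by
  induction n, han using Nat.le_induction with
  | base => simp [PS]
  | succ n han ih =>
    rw [balls_step G (α := α) hN, ih, ps_succ _ han, Finset.sum_Ico_succ_top han]
    ring

/-- with positive probability the urn stays in the region from some time on -/
theorem stay_reg (hN : 1 ≤ NN G) {s : G.edgeSet → V} (hs : Rising G s) (hα : Large G α)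
    (hB : ∀ i, 1 ≤ B0 i) (hU : IsUrn G α B0 μ ℱ c)
    (hmeas : ∀ n i, Measurable[ℱ (n + 1)] (fun ω => xi G α B0 c n ω i))
    (hbd : ∀ n ω i, |xi G α B0 c n ω i| ≤ 1)
    (hmean : ∀ n i, μ[fun ω => xi G α B0 c n ω i | ℱ n] =ᵐ[μ] 0) :
    0 < μ {ω | ∀ᶠ n in atTop, xx G B0 c n ω ∈ Reg G s} := by
  have hN0 : 0 < NN G := by linarith
  have hs' : ∀ e : G.edgeSet, s e ∈ (e : Sym2 V) := fun e => (hs e).1
  set N0 : ℝ := ∑ j, (B0 j : ℝ) with hN0def
  have hN00 : 0 ≤ N0 := Finset.sum_nonneg fun j _ => by positivity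
  have h1 := stay (μ := μ) (ℱ := ℱ) (fun (i : V) (k : ℕ) (ω : Ω) => xi G α B0 c k ω i)
    (fun i n => hmeas n i) (fun i n ω => hbd n ω i) (fun i n => hmean n i)
    (1 / (8 * NN G)) (by positivity)
  obtain ⟨m, h2, h3, h4⟩ := (h1.and ((eventually_ge_atTop 1).and
    (eventually_ge_atTop ⌈16 * N0⌉₊))).exists
  have h5 := h2 (Follow G c s (m ^ 2)) (follow_meas G hU s _) (follow_pos G hU hB s hs' _)
  refine lt_of_lt_of_le h5 (measure_mono ?_)
  rintro ω ⟨hω, hω2⟩
  have hm1 : (1 : ℝ) ≤ m := by exact_mod_cast h3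
  have hm16 : 16 * N0 ≤ (m : ℝ) := (Nat.le_ceil _).trans (by exact_mod_cast h4)
  have hmsq : (m : ℝ) ≤ ((m ^ 2 : ℕ) : ℝ) := by push_cast; nlinarith
  have key : ∀ n, m ^ 2 ≤ n → xx G B0 c n ω ∈ Reg G s := by
    intro n
    induction n using Nat.strong_induction_on with
    | _ n ih =>
      intro hn
      have hnr : ((m ^ 2 : ℕ) : ℝ) ≤ n := by exact_mod_cast hn
      have hn1 : (1 : ℝ) ≤ n := by linarith
      have hn16 : 16 * N0 ≤ (n : ℝ) := by linarith
      have hD : 0 < N0 + n * NN G := by nlinarith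
      refine ⟨fun i => ?_, fun i => ?_⟩
      · show 0 ≤ (balls G B0 c n ω i : ℝ) / (N0 + n * NN G)
        positivity
      · have hv0 : 0 ≤ vc G s i := by unfold vc; positivity
        have hv1 : vc G s i ≤ 1 := by
          unfold vc
          rw [div_le_one hN0]
          exact indeg_le G s i
        have hvN : vc G s i * NN G = indeg G s i := by unfold vc; field_simp
        have e1 := balls_formula G (α := α) (B0 := B0) (c := c) hN n hn ω i
        have e2 : (balls G B0 c (m ^ 2) ω i : ℝ) = B0 i + ((m ^ 2 : ℕ) : ℝ) * indeg G s i := by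
          rw [balls_follow G hω i]
          push_cast
          ring
        have e3 : |∑ k ∈ Finset.Ico (m ^ 2) n, FF G α (xx G B0 c k ω) i -
            ((n : ℝ) - ((m ^ 2 : ℕ) : ℝ)) * vc G s i| ≤ n * (1 / (16 * NN G)) := by
          have e4 : ∑ k ∈ Finset.Ico (m ^ 2) n, FF G α (xx G B0 c k ω) i -
            ((n : ℝ) - ((m ^ 2 : ℕ) : ℝ)) * vc G s i =
            ∑ k ∈ Finset.Ico (m ^ 2) n, (FF G α (xx G B0 c k ω) i - vc G s i) := by
            rw [Finset.sum_sub_distrib, Finset.sum_const, Nat.card_Ico, nsmul_eq_mul,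
              Nat.cast_sub hn]
          rw [e4]
          calc |∑ k ∈ Finset.Ico (m ^ 2) n, (FF G α (xx G B0 c k ω) i - vc G s i)|
              ≤ ∑ k ∈ Finset.Ico (m ^ 2) n, |FF G α (xx G B0 c k ω) i - vc G s i| :=
                Finset.abs_sum_le_sum_abs _ _
            _ ≤ ∑ k ∈ Finset.Ico (m ^ 2) n, (1 / (16 * NN G)) := by
                refine Finset.sum_le_sum fun k hk => ?_
                have hk' := Finset.mem_Ico.1 hk
                exact (reg_FF G hN hs (by linarith [hα.two]) (ih k hk'.2 hk'.1) i).trans hα.small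
            _ = ((n - m ^ 2 : ℕ) : ℝ) * (1 / (16 * NN G)) := by
                rw [Finset.sum_const, Nat.card_Ico, nsmul_eq_mul]
            _ ≤ n * (1 / (16 * NN G)) := by
                apply mul_le_mul_of_nonneg_right _ (by positivity)
                exact_mod_cast Nat.sub_le n (m ^ 2)
        have e5 := hω2 i n hn
        have e6 : |(B0 i : ℝ) - vc G s i * N0| ≤ N0 := by
          have h7 : (B0 i : ℝ) ≤ N0 :=
            Finset.single_le_sum (f := fun j => (B0 j : ℝ)) (fun j _ => by positivity)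
              (Finset.mem_univ i)
          have h8 : (0 : ℝ) ≤ B0 i := by positivity
          have h9 : vc G s i * N0 ≤ N0 := by nlinarith
          have h10 : 0 ≤ vc G s i * N0 := mul_nonneg hv0 hN00
          rw [abs_le]
          constructor <;> linarith
        have e7 : xx G B0 c n ω i - vc G s i =
            ((B0 i : ℝ) - vc G s i * N0 + NN G * (∑ k ∈ Finset.Ico (m ^ 2) n,
              FF G α (xx G B0 c k ω) i - ((n : ℝ) - ((m ^ 2 : ℕ) : ℝ)) * vc G s i) +
              NN G * PS (fun k ω => xi G α B0 c k ω i) (m ^ 2) n ω) / (N0 + n * NN G) := by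
          show (balls G B0 c n ω i : ℝ) / (N0 + n * NN G) - vc G s i = _
          rw [eq_div_iff hD.ne', sub_mul, div_mul_cancel₀ _ hD.ne', e1, e2, ← hvN]
          ring
        rw [e7, abs_div, abs_of_pos hD, div_le_iff₀ hD]
        have e8 : |(B0 i : ℝ) - vc G s i * N0 + NN G * (∑ k ∈ Finset.Ico (m ^ 2) n,
              FF G α (xx G B0 c k ω) i - ((n : ℝ) - ((m ^ 2 : ℕ) : ℝ)) * vc G s i) +
              NN G * PS (fun k ω => xi G α B0 c k ω i) (m ^ 2) n ω| ≤
              N0 + NN G * (n * (1 / (16 * NN G))) + NN G * (1 / (8 * NN G) * n) := by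
          refine (abs_add_le _ _).trans (add_le_add ((abs_add_le _ _).trans
            (add_le_add e6 ?_)) ?_)
          · rw [abs_mul, abs_of_pos hN0]
            exact mul_le_mul_of_nonneg_left e3 hN0.le
          · rw [abs_mul, abs_of_pos hN0]
            exact mul_le_mul_of_nonneg_left e5 hN0.le
        refine e8.trans ?_
        have e9 : N0 + NN G * (n * (1 / (16 * NN G))) + NN G * (1 / (8 * NN G) * n) =
            N0 + 3 / 16 * n := by
          field_simp
          ring
        have e10 : 1 / (4 * NN G) * (N0 + n * NN G) = N0 / (4 * NN G) + n / 4 := by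
          field_simp
        rw [e9, e10]
        have e11 : 0 ≤ N0 / (4 * NN G) := by positivity
        linarith
  exact eventually_atTop.2 ⟨m ^ 2, key⟩

end UrnPart

end Pool.Agent.KS6_36.Urn
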