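import Pool.Graph.R_seed8.Results.MP_cd93fa_pr.BoundaryLimits
import Pool.Agent.KS6_36.Urn.IntB
import Pool.Agent.KS6_36.Urn.Classify
import Pool.Agent.KS6_36.Urn.Stay2
import Pool.Agent.KS6_36.Urn.Exist

set_option autoImplicit false

/-!
All limits of the graph based Polya urn with a large exponent.
-/

namespace Pool.Agent.KS6_36.Urn

open MeasureTheory ProbabilityTheory Filter Topology H483U

/-- `x` is the point which belongs to the rising orientation `s` at the exponent `α` -/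
structure IsPoint {V : Type} [Fintype V] [DecidableEq V] (G : SimpleGraph V)
    [DecidableRel G.Adj] (α : ℝ) (s : G.edgeSet → V) (x : V → ℝ) : Prop where
  /-- the coordinates are nonnegative -/
  nonneg : ∀ i, 0 ≤ x i
  /-- their sum is one -/
  total : ∑ i, x i = 1
  /-- some coordinate is zero -/
  bdry : ∃ i, x i = 0
  /-- exactly the coordinates of the sources vanish -/
  zero_iff : ∀ i, x i = 0 ↔ indeg G s i = 0
  /-- `x` is an equilibrium -/
  equil : ∀ i, (Fintype.card G.edgeSet : ℝ) * x i =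
    ∑ j, if G.Adj i j then x i ^ α / (x i ^ α + x j ^ α) else 0
  /-- `x` is exponentially close to the vector of the normalised in-degrees -/
  close : ∀ i, |x i - (indeg G s i : ℝ) / (Fintype.card G.edgeSet : ℝ)| ≤
    Real.exp (-(α / (4 * (Fintype.card G.edgeSet : ℝ))))
  /-- `x` is the only equilibrium near this vector -/
  unique : ∀ y : V → ℝ, (∀ i, 0 ≤ y i) →
    (∀ i, |y i - (indeg G s i : ℝ) / (Fintype.card G.edgeSet : ℝ)| ≤
      1 / (4 * (Fintype.card G.edgeSet : ℝ))) →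
    (∀ i, (Fintype.card G.edgeSet : ℝ) * y i =
      ∑ j, if G.Adj i j then y i ^ α / (y i ^ α + y j ^ α) else 0) → y = x

lemma equil_iff {V : Type} [Fintype V] [DecidableEq V] (G : SimpleGraph V)
    [DecidableRel G.Adj] (hN : 1 ≤ NN G) (α : ℝ) (x : V → ℝ) (i : V) :
    FF G α x i = x i ↔ (Fintype.card G.edgeSet : ℝ) * x i =
      ∑ j, if G.Adj i j then x i ^ α / (x i ^ α + x j ^ α) else 0 := by
  have hN0 : (0 : ℝ) < Fintype.card G.edgeSet := by
    have : 0 < NN G := by linarith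
    exact this
  have h1 : ∑ j, A G i j * pr α (x i) (x j) =
      ∑ j, if G.Adj i j then x i ^ α / (x i ^ α + x j ^ α) else 0 := by
    refine Finset.sum_congr rfl fun j _ => ?_
    unfold A pr
    by_cases h : G.Adj i j
    · rw [if_pos h, if_pos h, one_mul]
    · rw [if_neg h, if_neg h, zero_mul]
  unfold FF
  rw [h1]
  unfold NN
  rw [one_div, inv_mul_eq_iff_eq_mul₀ hN0.ne']
  exact eq_comm

lemma rho_exp {V : Type} [Fintype V] [DecidableEq V] (G : SimpleGraph V)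
    [DecidableRel G.Adj] (hN : 1 ≤ NN G) {α : ℝ} (hα : 0 < α) :
    rho G ^ α ≤ Real.exp (-(α / (4 * NN G))) := by
  have hN0 : 0 < NN G := by linarith
  have h1 : rho G ≤ Real.exp (-(1 / (4 * NN G))) := by
    have := Real.add_one_le_exp (-(1 / (4 * NN G)))
    unfold rho
    linarith
  calc rho G ^ α ≤ Real.exp (-(1 / (4 * NN G))) ^ α :=
        Real.rpow_le_rpow (rho_bounds G hN).1.le h1 hα.le
    _ = Real.exp (-(α / (4 * NN G))) := by
        rw [← Real.exp_mul]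
        congr 1
        ring

theorem exists_point {V : Type} [Fintype V] [DecidableEq V] [Nonempty V] (G : SimpleGraph V)
    [DecidableRel G.Adj] (hN : 1 ≤ NN G) {α : ℝ} (hα : Large G α) {s : G.edgeSet → V}
    (hs : Rising G s) : ∃ x, x ∈ Reg G s ∧ (∀ i, FF G α x i = x i) ∧ IsPoint G α s x := by
  have hN0 : 0 < NN G := by linarith
  have hα0 : 0 < α := by linarith [hα.two]
  obtain ⟨x, hx, hfix⟩ := exists_fixed G hN hs hα
  have hzero : ∀ i, x i = 0 ↔ indeg G s i = 0 := by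
    intro i
    refine ⟨fun h => ?_, hx.2 i⟩
    by_contra hne
    have h1 : (1 : ℝ) ≤ indeg G s i := by exact_mod_cast Nat.one_le_iff_ne_zero.2 hne
    have h2 := (abs_le.1 (hx.1.2 i)).1
    rw [h] at h2
    have h3 : 1 / NN G ≤ vc G s i := by unfold vc; gcongr
    have h4 : 1 / (4 * NN G) < 1 / NN G := one_div_lt_one_div_of_lt hN0 (by linarith)
    linarith
  refine ⟨x, hx.1, hfix, hx.1.1, ?_, ?_, hzero, fun i => (equil_iff G hN α x i).1 (hfix i), ?_, ?_⟩
  · rw [← sum_FF G hN (α := α) (reg_adm G hN hs hx.1)]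
    exact Finset.sum_congr rfl fun i _ => (hfix i).symm
  · obtain ⟨i, hi⟩ := exists_source G hs
    exact ⟨i, (hzero i).2 hi⟩
  · intro i
    have h1 := reg_FF G hN hs hα0 hx.1 i
    rw [hfix] at h1
    exact h1.trans (rho_exp G hN hα0)
  · intro y hy0 hy1 hy2
    exact reg_unique G hN hs hα ⟨hy0, hy1⟩ hx.1 (fun i => (equil_iff G hN α y i).2 (hy2 i)) hfix

/-- the limit exists and is an equilibrium without unstable direction -/
theorem limit_ae {V : Type} [Fintype V] [DecidableEq V] (G : SimpleGraph V)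
    [DecidableRel G.Adj] (hN : 1 ≤ NN G) {α : ℝ} (hα2 : 2 < α) (hgap : Gap G α)
    {B0 : V → ℕ} (hB0 : ∀ i, 1 ≤ B0 i) {Ω : Type} [mΩ : MeasurableSpace Ω] (μ : Measure Ω)
    [hμ : IsProbabilityMeasure μ] (ℱ : Filtration ℕ mΩ) (c : ℕ → Ω → G.edgeSet → V)
    (hc : IsUrn G α B0 μ ℱ c) :
    ∀ᵐ ω ∂μ, ∃ p ∈ K G, (∀ i, vf G α p i = 0) ∧ ¬ Unstable G α p ∧
      Tendsto (fun n => xx G B0 c n ω) atTop (𝓝 p) := by
  have hfin := Fin.t Low.t Cont.t V G hN α hα2.le hgap
  obtain ⟨hc0, hstep, hxm, hξm, hbd, hpos, htot, n0, hreg⟩ :=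
    UrnA.t V G hN α (by linarith) B0 hB0 Ω mΩ μ hμ ℱ c hc
  obtain ⟨hmean, hvar⟩ := UrnB.t V G hN α (by linarith) B0 hB0 Ω mΩ μ hμ ℱ c hc
  set c0 : ℝ := 1 + (∑ j, (B0 j : ℝ)) / NN G with hc0def
  have hSA : SA G α μ ℱ c0 (xx G B0 c) (xi G α B0 c) :=
    ⟨hc0, hstep, hxm, hξm, hbd, hmean, hvar, hpos, htot, n0, hreg⟩
  have hsum := Lyap.t Edge.t V G hN α (by linarith) Ω mΩ μ hμ ℱ c0 _ _ hSA
  have hNC : NonConv := TaskN6.t N1.t N2.t N3.t TaskN4.t N5.t
  have hint : ∀ p ∈ {x | x ∈ K G ∧ ∀ i, vf G α x i = 0}, ∀ᵐ ω ∂μ, Unstable G α p →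
      ¬ Tendsto (fun n => xx G B0 c n ω) atTop (𝓝 p) := by
    intro p hp
    by_cases hp0 : Unstable G α p
    · filter_upwards [nonconv hNC V G hN α hα2 hgap Ω mΩ μ hμ ℱ c0 _ _ hSA
        p hp.1 hp.2 hp0] with ω hω _ using hω
    · exact Filter.Eventually.of_forall fun ω h => absurd h hp0
  have hint2 : ∀ᵐ ω ∂μ, ∀ p ∈ {x | x ∈ K G ∧ ∀ i, vf G α x i = 0}, Unstable G α p →
      ¬ Tendsto (fun n => xx G B0 c n ω) atTop (𝓝 p) :=
    (ae_ball_iff hfin.countable).mpr hint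
  obtain ⟨hvfc, hKc, -⟩ := Cont.t V G α (by linarith)
  filter_upwards [hsum, hint2] with ω hω1 hω2
  have hstep' : ∀ n : ℕ, ‖xx G B0 c (n + 1) ω - xx G B0 c n ω‖ ≤ 2 / (n + c0) := by
    intro n
    have hn : (0 : ℝ) < n + c0 := by positivity
    rw [pi_norm_le_iff_of_nonneg (by positivity)]
    intro i
    rw [Pi.sub_apply, hstep n ω i, add_sub_cancel_left, Real.norm_eq_abs, abs_mul,
      abs_of_pos (by positivity : (0 : ℝ) < 1 / (n + c0))]
    have h1 := Assembly.abs_vf_le G hN α (xx G B0 c n ω) (fun i => (hpos n ω i).le) (htot n ω) i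
    have h2 := hbd n ω i
    have h3 : |vf G α (xx G B0 c n ω) i + xi G α B0 c n ω i| ≤ 2 :=
      (abs_add_le _ _).trans (by linarith)
    calc 1 / (n + c0) * |vf G α (xx G B0 c n ω) i + xi G α B0 c n ω i|
        ≤ 1 / (n + c0) * 2 := by gcongr
      _ = 2 / (n + c0) := by ring
  have hfzero : {x | x ∈ K G ∧ ∑ i, (vf G α x i) ^ 2 = 0}.Finite := by
    refine hfin.subset ?_
    rintro x ⟨hx, hx2⟩
    refine ⟨hx, fun i => ?_⟩
    have := (Finset.sum_eq_zero_iff_of_nonneg (fun j _ => sq_nonneg (vf G α x j))).mp hx2 i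
      (Finset.mem_univ i)
    simpa using this
  obtain ⟨p, hpK, hp0, hpt⟩ := Conv.t V (K G) (fun x => ∑ i, (vf G α x i) ^ 2) hKc
    (continuousOn_finset_sum _ fun i _ => (hvfc i).pow 2)
    (fun x _ => Finset.sum_nonneg fun i _ => sq_nonneg _) hfzero
    (fun n => xx G B0 c n ω) 2 c0 hc0 (eventually_atTop.mpr ⟨n0, fun n hn => hreg n hn ω⟩)
    hstep' hω1
  have hpz : ∀ i, vf G α p i = 0 := by
    intro i
    have := (Finset.sum_eq_zero_iff_of_nonneg (fun j _ => sq_nonneg (vf G α p j))).mp hp0 i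
      (Finset.mem_univ i)
    simpa using this
  exact ⟨p, hpK, hpz, fun hU => hω2 p ⟨hpK, hpz⟩ hU hpt, hpt⟩

/-- different rising orientations have disjoint regions -/
lemma reg_inj {V : Type} [Fintype V] [DecidableEq V] (G : SimpleGraph V) [DecidableRel G.Adj]
    (hN : 1 ≤ NN G) {s t : G.edgeSet → V} (hs : Rising G s) (ht : Rising G t) {x : V → ℝ}
    (hxs : x ∈ Reg G s) (hxt : x ∈ Reg G t) : s = t := by
  have hN0 : 0 < NN G := by linarith
  have hr := rho_bounds G hN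
  funext e
  obtain ⟨e, he⟩ := e
  induction e using Sym2.ind with
  | _ a b =>
    have hab : G.Adj a b := (G.mem_edgeSet).1 he
    have key : ∀ (u v : G.edgeSet → V), Rising G u → Rising G v → x ∈ Reg G u → x ∈ Reg G v →
        ∀ i j (h : G.Adj i j), u ⟨s(i, j), (G.mem_edgeSet).2 h⟩ = i →
        v ⟨s(i, j), (G.mem_edgeSet).2 h⟩ = j → False := by
      intro u v hu hv hxu hxv i j h h1 h2
      obtain ⟨h3, h4⟩ := reg_edge G hN hu hxu h h1
      obtain ⟨h5, h6⟩ := reg_edge G hN hv hxv h.symm (by rw [swap_edge G v h]; exact h2)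
      have h7 : 0 < 1 / (2 * NN G) := by positivity
      nlinarith
    rcases hd_cases G (fun e => (hs e).1) hab with ⟨h1, -, -⟩ | ⟨h1, -, -⟩ <;>
      rcases hd_cases G (fun e => (ht e).1) hab with ⟨h2, -, -⟩ | ⟨h2, -, -⟩
    · rw [h1, h2]
    · exact (key s t hs ht hxs hxt a b hab h1 h2).elim
    · exact (key t s ht hs hxt hxs a b hab h2 h1).elim
    · rw [h1, h2]

theorem main (V : Type) [Fintype V] [DecidableEq V] (G : SimpleGraph V) [DecidableRel G.Adj]
    (hG : G.Connected) (hV : 2 ≤ Fintype.card V) :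
    (∃ s, Rising G s) ∧
    ∃ α₀ : ℝ, ∀ α : ℝ, α₀ < α → ∃ x : (G.edgeSet → V) → V → ℝ,
      (∀ s, Rising G s → IsPoint G α s (x s)) ∧
      (∀ s t, Rising G s → Rising G t → x s = x t → s = t) ∧
      ∀ B0 : V → ℕ, (∀ i, 1 ≤ B0 i) →
      ∀ (Ω : Type) (_ : MeasurableSpace Ω) (μ : Measure Ω) (_ : IsProbabilityMeasure μ)
        (ℱ : Filtration ℕ ‹MeasurableSpace Ω›) (c : ℕ → Ω → G.edgeSet → V),
        IsUrn G α B0 μ ℱ c →
        (∀ᵐ ω ∂μ, ∃ s, Rising G s ∧ Tendsto (fun n => xx G B0 c n ω) atTop (𝓝 (x s))) ∧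
        ∀ s, Rising G s →
          0 < μ {ω | Tendsto (fun n => xx G B0 c n ω) atTop (𝓝 (x s))} := by
  have hN := Assembly.one_le_NN G hG hV
  haveI : Nonempty V := hG.nonempty
  refine ⟨exists_rising G, ?_⟩
  obtain ⟨α₁, hα₁⟩ := Gap.t Low.t Dich.t V G hN
  have hev := (eventually_large G hN).and ((classify G hN).and (eventually_ge_atTop α₁))
  obtain ⟨α₀, hα₀⟩ := eventually_atTop.1 hev
  refine ⟨α₀, fun α hα => ?_⟩
  obtain ⟨hL, hcl, hge⟩ := hα₀ α hα.le
  have hgap : Gap G α := hα₁ α hge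
  have hex : ∀ s : G.edgeSet → V, ∃ x : V → ℝ, Rising G s →
      x ∈ Reg G s ∧ (∀ i, FF G α x i = x i) ∧ IsPoint G α s x := by
    intro s
    by_cases hs : Rising G s
    · obtain ⟨x, hx⟩ := exists_point G hN hL hs
      exact ⟨x, fun _ => hx⟩
    · exact ⟨0, fun h => absurd h hs⟩
  choose x hx using hex
  have hFF : ∀ p : V → ℝ, (∀ i, vf G α p i = 0) → ∀ i, FF G α p i = p i := by
    intro p hp i
    have := hp i
    rw [vf_eq] at this
    linarith
  refine ⟨x, fun s hs => (hx s hs).2.2, ?_, ?_⟩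
  · intro s t hs ht hst
    refine reg_inj G hN hs ht (hx s hs).1 ?_
    rw [hst]
    exact (hx t ht).1
  · intro B0 hB0 Ω mΩ μ hμ ℱ c hc
    have hlim := limit_ae G hN hL.two hgap hB0 μ ℱ c hc
    refine ⟨?_, ?_⟩
    · filter_upwards [hlim] with ω hω
      obtain ⟨p, hpK, hpz, hpu, hpt⟩ := hω
      obtain ⟨s, hs, hps⟩ := hcl p hpK hpz hpu
      have : p = x s := reg_unique G hN hs hL hps (hx s hs).1 (hFF p hpz) (hx s hs).2.1
      rw [this] at hpt
      exact ⟨s, hs, hpt⟩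
    · intro s hs
      obtain ⟨hc0, hstep, hxm, hξm, hbd, hpos, htot, n0, hreg⟩ :=
        UrnA.t V G hN α (by linarith [hL.two]) B0 hB0 Ω mΩ μ hμ ℱ c hc
      obtain ⟨hmean, hvar⟩ := UrnB.t V G hN α (by linarith [hL.two]) B0 hB0 Ω mΩ μ hμ ℱ c hc
      have h1 := stay_reg G hN hs hL hB0 hc hξm hbd hmean
      refine lt_of_lt_of_le h1 (measure_mono_ae ?_)
      filter_upwards [hlim] with ω hω hstay
      obtain ⟨p, hpK, hpz, hpu, hpt⟩ := hω
      have hps : p ∈ Reg G s := (reg_closed G s).mem_of_tendsto hpt hstay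
      have : p = x s := reg_unique G hN hs hL hps (hx s hs).1 (hFF p hpz) (hx s hs).2.1
      show Tendsto (fun n => xx G B0 c n ω) atTop (𝓝 (x s))
      rw [← this]
      exact hpt

end Pool.Agent.KS6_36.Urn
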