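import Pool.Graph.R_seed8.H483R3.Urn.Final
import Pool.Graph.R_seed8.H483R3.Urn.UrnB
import Pool.Graph.R_seed8.H483R3.Urn.TaskUrnA
import Pool.Agent.KS6_36.Urn.Bdry

set_option autoImplicit false

/-!
Rising orientations of a graph and the equilibria of the mean field which belong to them.
-/

namespace Pool.Agent.KS6_36.Urn

open Filter Topology H483U

/-! ### One edge -/

lemma pr_small {α a b ρ : ℝ} (hα : 0 < α) (ha : 0 ≤ a) (hb : 0 < b) (hab : a ≤ ρ * b) :
    0 ≤ pr α a b ∧ pr α a b ≤ ρ ^ α := by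
  have hρ : 0 ≤ ρ := by
    by_contra h
    push Not at h
    nlinarith
  have hB : 0 < b ^ α := Real.rpow_pos_of_pos hb _
  have hA : 0 ≤ a ^ α := Real.rpow_nonneg ha _
  have h1 : a ^ α ≤ ρ ^ α * b ^ α := by
    rw [← Real.mul_rpow hρ hb.le]
    exact Real.rpow_le_rpow ha hab hα.le
  have hR : 0 ≤ ρ ^ α := Real.rpow_nonneg hρ _
  unfold pr
  refine ⟨by positivity, ?_⟩
  rw [div_le_iff₀ (by positivity)]
  nlinarith

lemma rpow_lip {α ρ t u : ℝ} (hα : 1 ≤ α) (ht : 0 ≤ t) (hu : 0 ≤ u) (htρ : t ≤ ρ) (huρ : u ≤ ρ) :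
    |t ^ α - u ^ α| ≤ α * ρ ^ (α - 1) * |t - u| := by
  have h := Convex.norm_image_sub_le_of_norm_hasDerivWithin_le (f := fun x : ℝ => x ^ α)
    (f' := fun x : ℝ => α * x ^ (α - 1)) (s := Set.Icc 0 ρ) (C := α * ρ ^ (α - 1))
    (x := u) (y := t)
    (fun x _ => (Real.hasDerivAt_rpow_const (Or.inr hα)).hasDerivWithinAt)
    (fun x hx => by
      rw [Real.norm_eq_abs, abs_mul, abs_of_nonneg (by linarith : (0 : ℝ) ≤ α),
        abs_of_nonneg (Real.rpow_nonneg hx.1 _)]
      exact mul_le_mul_of_nonneg_left (Real.rpow_le_rpow hx.1 hx.2 (by linarith)) (by linarith))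
    (convex_Icc 0 ρ) ⟨hu, huρ⟩ ⟨ht, htρ⟩
  simpa [Real.norm_eq_abs] using h

lemma pr_eq_ratio {α a b : ℝ} (ha : 0 ≤ a) (hb : 0 < b) :
    pr α a b = (a / b) ^ α / (1 + (a / b) ^ α) := by
  have hB : 0 < b ^ α := Real.rpow_pos_of_pos hb _
  have hA : 0 ≤ a ^ α := Real.rpow_nonneg ha _
  unfold pr
  rw [Real.div_rpow ha hb.le]
  field_simp
  ring

lemma pr_lip {α a b a' b' ρ β D : ℝ} (hα : 1 ≤ α) (hρ : ρ ≤ 1) (hβ : 0 < β)
    (ha : 0 ≤ a) (hb : β ≤ b) (hab : a ≤ ρ * b)
    (ha' : 0 ≤ a') (hb' : β ≤ b') (hab' : a' ≤ ρ * b')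
    (h1 : |a - a'| ≤ D) (h2 : |b - b'| ≤ D) :
    |pr α a b - pr α a' b'| ≤ 2 / β * (α * ρ ^ (α - 1)) * D := by
  have hb0 : 0 < b := by linarith
  have hb0' : 0 < b' := by linarith
  have hρ0 : 0 ≤ ρ := by
    by_contra h
    push Not at h
    nlinarith
  have ht : a / b ≤ ρ := by rwa [div_le_iff₀ hb0]
  have ht' : a' / b' ≤ ρ := by rwa [div_le_iff₀ hb0']
  have ht0 : 0 ≤ a / b := by positivity
  have ht0' : 0 ≤ a' / b' := by positivity
  have hD : 0 ≤ D := (abs_nonneg _).trans h1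
  have h3 : |a / b - a' / b'| ≤ 2 / β * D := by
    have e : a / b - a' / b' = (a - a') / b + (a' / b') * ((b' - b) / b) := by
      field_simp
      ring
    rw [e]
    have h4 : |(a - a') / b| ≤ D / β := by
      rw [abs_div, abs_of_pos hb0]
      exact div_le_div₀ hD h1 hβ hb
    have h5 : |(a' / b') * ((b' - b) / b)| ≤ D / β := by
      rw [abs_mul, abs_of_nonneg ht0', abs_div, abs_of_pos hb0, abs_sub_comm b' b]
      have h6 : |b - b'| / b ≤ D / β := div_le_div₀ hD h2 hβ hb
      have h7 : 0 ≤ |b - b'| / b := by positivity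
      nlinarith
    calc |(a - a') / b + (a' / b') * ((b' - b) / b)|
        ≤ |(a - a') / b| + |(a' / b') * ((b' - b) / b)| := abs_add_le _ _
      _ ≤ D / β + D / β := by linarith
      _ = 2 / β * D := by ring
  have h8 := rpow_lip hα ht0 ht0' ht ht'
  have hu : 0 ≤ (a / b) ^ α := Real.rpow_nonneg ht0 _
  have hv : 0 ≤ (a' / b') ^ α := Real.rpow_nonneg ht0' _
  rw [pr_eq_ratio ha hb0, pr_eq_ratio ha' hb0']
  set u := (a / b) ^ α with hudef
  set v := (a' / b') ^ α with hvdef
  have h9 : |u / (1 + u) - v / (1 + v)| ≤ |u - v| := by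
    have e : u / (1 + u) - v / (1 + v) = (u - v) / ((1 + u) * (1 + v)) := by
      field_simp
      ring
    rw [e, abs_div, abs_of_pos (by positivity : 0 < (1 + u) * (1 + v))]
    apply div_le_self (abs_nonneg _)
    nlinarith
  have hc : 0 ≤ α * ρ ^ (α - 1) := mul_nonneg (by linarith) (Real.rpow_nonneg hρ0 _)
  calc |u / (1 + u) - v / (1 + v)| ≤ |u - v| := h9
    _ ≤ α * ρ ^ (α - 1) * |a / b - a' / b'| := h8
    _ ≤ α * ρ ^ (α - 1) * (2 / β * D) := mul_le_mul_of_nonneg_left h3 hc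
    _ = 2 / β * (α * ρ ^ (α - 1)) * D := by ring

/-! ### Orientations -/

section
variable {V : Type} [Fintype V] [DecidableEq V] (G : SimpleGraph V) [DecidableRel G.Adj]

/-- `s` chooses an end point (the head) for every edge; the number of the edges with head `i` -/
def indeg (s : G.edgeSet → V) (i : V) : ℕ :=
  (Finset.univ.filter (fun e : G.edgeSet => s e = i)).card

/-- `s` is an orientation of `G` in which the head of every edge has a larger in-degree than the
tail -/
def Rising (s : G.edgeSet → V) : Prop :=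
  ∀ e : G.edgeSet, s e ∈ (e : Sym2 V) ∧
    ∀ i ∈ (e : Sym2 V), i ≠ s e → indeg G s i < indeg G s (s e)

/-- `1` if `i` is the head of the edge `i j` -/
noncomputable def hd (s : G.edgeSet → V) (i j : V) : ℝ :=
  if h : G.Adj i j then (if s ⟨s(i, j), (G.mem_edgeSet).2 h⟩ = i then 1 else 0) else 0

lemma hd_nonadj {s : G.edgeSet → V} {i j : V} (h : ¬ G.Adj i j) : hd G s i j = 0 := by
  unfold hd
  rw [dif_neg h]

lemma swap_edge (s : G.edgeSet → V) {i j : V} (h : G.Adj i j) :
    s ⟨s(j, i), (G.mem_edgeSet).2 h.symm⟩ = s ⟨s(i, j), (G.mem_edgeSet).2 h⟩ := by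
  congr 1
  exact Subtype.ext (Sym2.eq_swap)

/-- one of the two end points is the head -/
lemma hd_cases {s : G.edgeSet → V} (hs : ∀ e : G.edgeSet, s e ∈ (e : Sym2 V)) {i j : V}
    (h : G.Adj i j) :
    (s ⟨s(i, j), (G.mem_edgeSet).2 h⟩ = i ∧ hd G s i j = 1 ∧ hd G s j i = 0) ∨
    (s ⟨s(i, j), (G.mem_edgeSet).2 h⟩ = j ∧ hd G s i j = 0 ∧ hd G s j i = 1) := by
  have hne : i ≠ j := h.ne
  have h1 := hs ⟨s(i, j), (G.mem_edgeSet).2 h⟩
  simp only [Sym2.mem_iff] at h1
  unfold hd
  rw [dif_pos h, dif_pos h.symm, swap_edge G s h]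
  rcases h1 with h1 | h1
  · left
    refine ⟨h1, ?_, ?_⟩
    · rw [if_pos h1]
    · rw [if_neg (by rw [h1]; exact hne)]
  · right
    refine ⟨h1, ?_, ?_⟩
    · rw [if_neg (by rw [h1]; exact hne.symm)]
    · rw [if_pos h1]

lemma indeg_eq {s : G.edgeSet → V} (hs : ∀ e : G.edgeSet, s e ∈ (e : Sym2 V)) (i : V) :
    (indeg G s i : ℝ) = ∑ j, hd G s i j := by
  classical
  have h := UrnB.edge_sum G (fun x y => if x = i then hd G s x y else 0)
    (fun e => if s e = i then 1 else 0) (by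
      intro a b hab
      have hne : a ≠ b := hab.ne
      rcases hd_cases G hs hab with ⟨h1, h2, h3⟩ | ⟨h1, h2, h3⟩
      · simp only [h1, h2, h3]
        by_cases hai : a = i
        · simp [hai]
        · simp [hai]
      · simp only [h1, h2, h3]
        by_cases hbi : b = i
        · simp [hbi]
        · simp [hbi])
  have h2 : ∑ x, ∑ y, A G x y * (if x = i then hd G s x y else 0) = ∑ j, hd G s i j := by
    rw [Finset.sum_eq_single i]
    · refine Finset.sum_congr rfl fun j _ => ?_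
      rw [if_pos rfl]
      by_cases hij : G.Adj i j
      · have : A G i j = 1 := by simp [A, hij]
        rw [this, one_mul]
      · rw [hd_nonadj G hij, mul_zero]
    · intro x _ hx
      exact Finset.sum_eq_zero fun y _ => by rw [if_neg hx, mul_zero]
    · intro h
      exact absurd (Finset.mem_univ _) h
  rw [← h2, h]
  unfold indeg
  rw [Finset.card_filter]
  push_cast
  rfl

lemma indeg_le (s : G.edgeSet → V) (i : V) : (indeg G s i : ℝ) ≤ NN G := by
  unfold indeg NN
  exact_mod_cast Finset.card_le_univ _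

/-! ### The region of an orientation -/

/-- the centre of the region -/
noncomputable def vc (s : G.edgeSet → V) (i : V) : ℝ := (indeg G s i : ℝ) / NN G

/-- points near the centre -/
def Reg (s : G.edgeSet → V) : Set (V → ℝ) :=
  {x | (∀ i, 0 ≤ x i) ∧ ∀ i, |x i - vc G s i| ≤ 1 / (4 * NN G)}

/-- the ratio -/
noncomputable def rho : ℝ := 1 - 1 / (4 * NN G)

lemma rho_bounds (hN : 1 ≤ NN G) : 0 < rho G ∧ rho G < 1 := by
  have h1 : 0 < 1 / (4 * NN G) := by positivity
  have h2 : 1 / (4 * NN G) < 1 := by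
    rw [div_lt_one (by positivity)]
    linarith
  unfold rho
  constructor <;> linarith

/-- the coordinates at an edge of a point of the region -/
lemma reg_edge (hN : 1 ≤ NN G) {s : G.edgeSet → V} (hs : Rising G s) {x : V → ℝ}
    (hx : x ∈ Reg G s) {i j : V} (h : G.Adj i j)
    (hi : s ⟨s(i, j), (G.mem_edgeSet).2 h⟩ = i) :
    1 / (2 * NN G) ≤ x i ∧ x j ≤ rho G * x i := by
  have hN0 : 0 < NN G := by linarith
  have h1 := (hs ⟨s(i, j), (G.mem_edgeSet).2 h⟩).2 j (Sym2.mem_mk_right i j)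
    (by rw [hi]; exact h.ne.symm)
  rw [hi] at h1
  have h2 : (indeg G s j : ℝ) + 1 ≤ indeg G s i := by exact_mod_cast h1
  have h3 := indeg_le G s i
  have hvi : vc G s j + 1 / NN G ≤ vc G s i := by
    unfold vc
    rw [← add_div]
    gcongr
  have hv1 : vc G s i ≤ 1 := by
    unfold vc
    rwa [div_le_one hN0]
  have h4 := abs_le.1 (hx.2 i)
  have h5 := abs_le.1 (hx.2 j)
  have h6 := hx.1 j
  have e1 : 1 / NN G = 4 * (1 / (4 * NN G)) := by field_simp
  have e2 : 1 / (2 * NN G) = 2 * (1 / (4 * NN G)) := by field_simp; norm_num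
  have hd : 1 / (4 * NN G) ≤ 1 := by
    rw [div_le_one (by positivity)]
    linarith
  set d := 1 / (4 * NN G) with hddef
  have hd0 : 0 < d := by positivity
  have h7 : x j ≤ x i - 2 * d := by linarith [h4.1, h5.2]
  refine ⟨by rw [e2]; linarith, ?_⟩
  have h8 : x i ≤ 2 := by linarith [h4.2]
  unfold rho
  rw [← hddef]
  nlinarith

/-- the mean field without the linear term -/
noncomputable def FF (α : ℝ) (x : V → ℝ) (i : V) : ℝ :=
  (1 / NN G) * ∑ j, A G i j * pr α (x i) (x j)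

lemma vf_eq (α : ℝ) (x : V → ℝ) (i : V) : vf G α x i = - x i + FF G α x i := rfl

lemma A_nonneg (i j : V) : 0 ≤ A G i j := by unfold A; split_ifs <;> norm_num

/-- the sum over the edges at a vertex is at most `NN` times the maximum -/
lemma avg_le (hN : 1 ≤ NN G) (i : V) (f : V → ℝ) (M : ℝ) (hM : 0 ≤ M)
    (hf : ∀ j, G.Adj i j → |f j| ≤ M) :
    |(1 / NN G) * ∑ j, A G i j * f j| ≤ M := by
  have hN0 : 0 < NN G := by linarith
  have h1 : |∑ j, A G i j * f j| ≤ NN G * M := by
    calc |∑ j, A G i j * f j| ≤ ∑ j, |A G i j * f j| := Finset.abs_sum_le_sum_abs _ _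
      _ ≤ ∑ j, A G i j * M := by
          refine Finset.sum_le_sum fun j _ => ?_
          rw [abs_mul, abs_of_nonneg (A_nonneg G i j)]
          by_cases hij : G.Adj i j
          · exact mul_le_mul_of_nonneg_left (hf j hij) (A_nonneg G i j)
          · have : A G i j = 0 := by simp [A, hij]
            rw [this]
            simp
      _ = (∑ j, A G i j) * M := by rw [Finset.sum_mul]
      _ ≤ NN G * M := mul_le_mul_of_nonneg_right (Assembly.sum_A_le G i) hM
  rw [abs_mul, abs_of_pos (by positivity : 0 < 1 / NN G)]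
  calc 1 / NN G * |∑ j, A G i j * f j| ≤ 1 / NN G * (NN G * M) :=
        mul_le_mul_of_nonneg_left h1 (by positivity)
    _ = M := by field_simp

/-- the edge probabilities in the region are nearly those of the orientation -/
lemma reg_pr (hN : 1 ≤ NN G) {s : G.edgeSet → V} (hs : Rising G s) {α : ℝ} (hα : 0 < α)
    {x : V → ℝ} (hx : x ∈ Reg G s) {i j : V} (h : G.Adj i j) :
    |pr α (x i) (x j) - hd G s i j| ≤ rho G ^ α := by
  have hN0 : 0 < NN G := by linarith
  rcases hd_cases G (fun e => (hs e).1) h with ⟨h1, h2, -⟩ | ⟨h1, h2, -⟩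
  · obtain ⟨h3, h4⟩ := reg_edge G hN hs hx h h1
    have h5 : 0 < x i := lt_of_lt_of_le (by positivity) h3
    have h6 := pr_small hα (hx.1 j) h5 h4
    rw [h2, pr_add (den_pos' (hx.1 i) (hx.1 j) (by linarith [hx.1 j]))]
    rw [show (1 : ℝ) - pr α (x j) (x i) - 1 = - pr α (x j) (x i) by ring, abs_neg,
      abs_of_nonneg h6.1]
    exact h6.2
  · obtain ⟨h3, h4⟩ := reg_edge G hN hs hx h.symm (by rw [swap_edge G s h]; exact h1)
    have h5 : 0 < x j := lt_of_lt_of_le (by positivity) h3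
    have h6 := pr_small hα (hx.1 i) h5 h4
    rw [h2, sub_zero, abs_of_nonneg h6.1]
    exact h6.2

/-- the mean field in the region -/
lemma reg_FF (hN : 1 ≤ NN G) {s : G.edgeSet → V} (hs : Rising G s) {α : ℝ} (hα : 0 < α)
    {x : V → ℝ} (hx : x ∈ Reg G s) (i : V) :
    |FF G α x i - vc G s i| ≤ rho G ^ α := by
  have hN0 : 0 < NN G := by linarith
  have e : FF G α x i - vc G s i =
      (1 / NN G) * ∑ j, A G i j * (pr α (x i) (x j) - hd G s i j) := by
    unfold FF vc
    rw [indeg_eq G (fun e => (hs e).1)]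
    have : ∑ j, A G i j * (pr α (x i) (x j) - hd G s i j) =
        ∑ j, A G i j * pr α (x i) (x j) - ∑ j, hd G s i j := by
      rw [← Finset.sum_sub_distrib]
      refine Finset.sum_congr rfl fun j _ => ?_
      by_cases hij : G.Adj i j
      · have : A G i j = 1 := by simp [A, hij]
        rw [this]; ring
      · have : A G i j = 0 := by simp [A, hij]
        rw [this, hd_nonadj G hij]; ring
    rw [this]
    ring
  rw [e]
  exact avg_le G hN i _ _ (Real.rpow_nonneg (rho_bounds G hN).1.le _)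
    (fun j hij => reg_pr G hN hs hα hx hij)

/-- the edge probabilities are Lipschitz in the region -/
lemma reg_lip (hN : 1 ≤ NN G) {s : G.edgeSet → V} (hs : Rising G s) {α : ℝ} (hα : 1 ≤ α)
    {x y : V → ℝ} (hx : x ∈ Reg G s) (hy : y ∈ Reg G s) {D : ℝ} (hD : ∀ i, |x i - y i| ≤ D)
    (i : V) :
    |FF G α x i - FF G α y i| ≤ 4 * NN G * (α * rho G ^ (α - 1)) * D := by
  have hN0 : 0 < NN G := by linarith
  have hD0 : 0 ≤ D := (abs_nonneg _).trans (hD i)
  have hr := rho_bounds G hN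
  have hc : 0 ≤ rho G ^ (α - 1) := Real.rpow_nonneg hr.1.le _
  have key : ∀ j, G.Adj i j → |pr α (x i) (x j) - pr α (y i) (y j)| ≤
      4 * NN G * (α * rho G ^ (α - 1)) * D := by
    intro j h
    have e4 : 2 / (1 / (2 * NN G)) = 4 * NN G := by field_simp; norm_num
    rcases hd_cases G (fun e => (hs e).1) h with ⟨h1, -, -⟩ | ⟨h1, -, -⟩
    · obtain ⟨h3, h4⟩ := reg_edge G hN hs hx h h1
      obtain ⟨h3', h4'⟩ := reg_edge G hN hs hy h h1
      have h5 : 0 < x i := lt_of_lt_of_le (by positivity) h3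
      have h5' : 0 < y i := lt_of_lt_of_le (by positivity) h3'
      have h6 := pr_lip (D := D) hα hr.2.le (by positivity : 0 < 1 / (2 * NN G)) (hx.1 j) h3 h4
        (hy.1 j) h3' h4' (hD j) (hD i)
      rw [e4] at h6
      rw [pr_add (den_pos' (hx.1 i) (hx.1 j) (by linarith [hx.1 j])),
        pr_add (den_pos' (hy.1 i) (hy.1 j) (by linarith [hy.1 j])),
        show (1 : ℝ) - pr α (x j) (x i) - (1 - pr α (y j) (y i)) =
          -(pr α (x j) (x i) - pr α (y j) (y i)) by ring, abs_neg]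
      exact h6
    · obtain ⟨h3, h4⟩ := reg_edge G hN hs hx h.symm (by rw [swap_edge G s h]; exact h1)
      obtain ⟨h3', h4'⟩ := reg_edge G hN hs hy h.symm (by rw [swap_edge G s h]; exact h1)
      have h6 := pr_lip (D := D) hα hr.2.le (by positivity : 0 < 1 / (2 * NN G)) (hx.1 i) h3 h4
        (hy.1 i) h3' h4' (hD i) (hD j)
      rw [e4] at h6
      exact h6
  have e : FF G α x i - FF G α y i =
      (1 / NN G) * ∑ j, A G i j * (pr α (x i) (x j) - pr α (y i) (y j)) := by
    unfold FF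
    rw [← mul_sub, ← Finset.sum_sub_distrib]
    congr 1
    exact Finset.sum_congr rfl fun j _ => by ring
  rw [e]
  exact avg_le G hN i _ _ (by positivity) key

end

end Pool.Agent.KS6_36.Urn
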