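import Pool.Agent.KS6_36.Urn.Fixed

set_option autoImplicit false

/-!
With positive probability the urn stays in the region of a rising orientation.
-/

namespace Pool.Agent.KS6_36.Urn

open MeasureTheory ProbabilityTheory Filter Topology H483U

section Mart

variable {Ω : Type} [mΩ : MeasurableSpace Ω] {μ : Measure Ω} [IsProbabilityMeasure μ]
  {ℱ : Filtration ℕ mΩ}

/-- partial sums -/
noncomputable def PS (ζ : ℕ → Ω → ℝ) (a n : ℕ) (ω : Ω) : ℝ := ∑ k ∈ Finset.Ico a n, ζ k ω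

lemma ps_succ (ζ : ℕ → Ω → ℝ) {a n : ℕ} (h : a ≤ n) (ω : Ω) :
    PS ζ a (n + 1) ω = PS ζ a n ω + ζ n ω := by
  unfold PS
  rw [Finset.sum_Ico_succ_top h]

lemma ps_meas {ζ : ℕ → Ω → ℝ} (hζ : ∀ n, Measurable[ℱ (n + 1)] (ζ n)) (a n : ℕ) :
    Measurable[ℱ n] (PS ζ a n) := by
  unfold PS
  refine Finset.measurable_fun_sum _ fun k hk => ?_
  exact (hζ k).mono (ℱ.mono (Finset.mem_Ico.1 hk).2) le_rfl

lemma ps_bound {ζ : ℕ → Ω → ℝ} (hb : ∀ n ω, |ζ n ω| ≤ 1) (a n : ℕ) (ω : Ω) :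
    |PS ζ a n ω| ≤ n := by
  unfold PS
  calc |∑ k ∈ Finset.Ico a n, ζ k ω| ≤ ∑ k ∈ Finset.Ico a n, |ζ k ω| :=
        Finset.abs_sum_le_sum_abs _ _
    _ ≤ ∑ k ∈ Finset.Ico a n, (1 : ℝ) := Finset.sum_le_sum fun k _ => hb k ω
    _ = ((n - a : ℕ) : ℝ) := by simp
    _ ≤ n := by exact_mod_cast Nat.sub_le n a

lemma ps_diff {ζ : ℕ → Ω → ℝ} (hb : ∀ n ω, |ζ n ω| ≤ 1) {a r n : ℕ} (har : a ≤ r) (hrn : r ≤ n)
    (ω : Ω) : |PS ζ a n ω| ≤ |PS ζ a r ω| + (n - r) := by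
  have h1 : PS ζ a n ω = PS ζ a r ω + ∑ k ∈ Finset.Ico r n, ζ k ω := by
    unfold PS
    rw [Finset.sum_Ico_consecutive _ har hrn]
  have h2 : |∑ k ∈ Finset.Ico r n, ζ k ω| ≤ (n : ℝ) - r := by
    calc |∑ k ∈ Finset.Ico r n, ζ k ω| ≤ ∑ k ∈ Finset.Ico r n, |ζ k ω| :=
          Finset.abs_sum_le_sum_abs _ _
      _ ≤ ∑ k ∈ Finset.Ico r n, (1 : ℝ) := Finset.sum_le_sum fun k _ => hb k ω
      _ = ((n - r : ℕ) : ℝ) := by simp
      _ = (n : ℝ) - r := by rw [Nat.cast_sub hrn]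
  rw [h1]
  exact (abs_add_le _ _).trans (by linarith)

lemma cross {ζ : ℕ → Ω → ℝ} (hζ : ∀ n, Measurable[ℱ (n + 1)] (ζ n))
    (hb : ∀ n ω, |ζ n ω| ≤ 1) (hm : ∀ n, μ[ζ n | ℱ n] =ᵐ[μ] 0) {a n : ℕ} (han : a ≤ n)
    {H : Set Ω} (hH : MeasurableSet[ℱ a] H) :
    ∫ ω in H, PS ζ a n ω * ζ n ω ∂μ = 0 := by
  have hHn : MeasurableSet[ℱ n] H := ℱ.mono han _ hH
  have hHm : MeasurableSet H := ℱ.le n _ hHn
  set g : Ω → ℝ := H.indicator (PS ζ a n) with hg
  have hgm : Measurable[ℱ n] g := (ps_meas hζ a n).indicator hHn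
  have hgb : ∀ ω, |g ω| ≤ n := by
    intro ω
    by_cases h : ω ∈ H
    · rw [hg, Set.indicator_of_mem h]; exact ps_bound hb a n ω
    · rw [hg, Set.indicator_of_notMem h, abs_zero]; positivity
  have hζi : Integrable (ζ n) μ := by
    refine Integrable.of_bound (C := 1) ?_ (Eventually.of_forall fun ω => ?_)
    · exact ((hζ n).mono (ℱ.le (n + 1)) le_rfl).aestronglyMeasurable
    · rw [Real.norm_eq_abs]; exact hb n ω
  have hgi : Integrable (g * ζ n) μ := by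
    refine hζi.bdd_mul (c := n) ?_ ?_
    · exact (hgm.mono (ℱ.le n) le_rfl).aestronglyMeasurable
    · exact ae_of_all _ fun ω => by rw [Real.norm_eq_abs]; exact hgb ω
  have h1 : ∫ ω in H, PS ζ a n ω * ζ n ω ∂μ = ∫ ω, (g * ζ n) ω ∂μ := by
    rw [← integral_indicator hHm]
    refine integral_congr_ae (ae_of_all _ fun ω => ?_)
    by_cases h : ω ∈ H
    · simp [hg, h]
    · simp [hg, h]
  rw [h1, ← integral_condExp (ℱ.le n)]
  have h2 := condExp_mul_of_stronglyMeasurable_left hgm.stronglyMeasurable hgi hζi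
  have h3 : μ[g * ζ n | ℱ n] =ᵐ[μ] 0 := by
    filter_upwards [h2, hm n] with ω ha hb'
    rw [ha, Pi.mul_apply, hb']
    simp
  rw [integral_congr_ae h3]
  simp

lemma second_moment {ζ : ℕ → Ω → ℝ} (hζ : ∀ n, Measurable[ℱ (n + 1)] (ζ n))
    (hb : ∀ n ω, |ζ n ω| ≤ 1) (hm : ∀ n, μ[ζ n | ℱ n] =ᵐ[μ] 0) {a : ℕ}
    {H : Set Ω} (hH : MeasurableSet[ℱ a] H) (n : ℕ) (han : a ≤ n) :
    ∫ ω in H, PS ζ a n ω ^ 2 ∂μ ≤ ((n : ℝ) - a) * μ.real H := by
  have hHm : MeasurableSet H := ℱ.le a _ hH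
  induction n, han using Nat.le_induction with
  | base => simp [PS]
  | succ n han ih =>
    have hi : ∀ (f : Ω → ℝ) (C : ℝ), Measurable f → (∀ ω, |f ω| ≤ C) →
        Integrable f (μ.restrict H) := by
      intro f C hf hC
      refine Integrable.of_bound (C := C) hf.aestronglyMeasurable (Eventually.of_forall fun ω => ?_)
      rw [Real.norm_eq_abs]; exact hC ω
    have hpm : Measurable (PS ζ a n) := (ps_meas hζ a n).mono (ℱ.le n) le_rfl
    have hzm : Measurable (ζ n) := (hζ n).mono (ℱ.le (n + 1)) le_rfl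
    have h1 : ∀ ω, PS ζ a (n + 1) ω ^ 2 =
        PS ζ a n ω ^ 2 + 2 * (PS ζ a n ω * ζ n ω) + ζ n ω ^ 2 := by
      intro ω
      rw [ps_succ ζ han]
      ring
    simp only [h1]
    have i1 : Integrable (fun ω => PS ζ a n ω ^ 2) (μ.restrict H) :=
      hi _ ((n : ℝ) ^ 2) (hpm.pow_const 2) fun ω => by
        rw [abs_pow]; exact pow_le_pow_left₀ (abs_nonneg _) (ps_bound hb a n ω) 2
    have i2 : Integrable (fun ω => 2 * (PS ζ a n ω * ζ n ω)) (μ.restrict H) :=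
      hi _ (2 * (n * 1)) ((hpm.mul hzm).const_mul 2) fun ω => by
        rw [abs_mul, abs_mul, abs_of_pos (by norm_num : (0 : ℝ) < 2)]
        have := mul_le_mul (ps_bound hb a n ω) (hb n ω) (abs_nonneg _) (by positivity)
        linarith
    have i3 : Integrable (fun ω => ζ n ω ^ 2) (μ.restrict H) :=
      hi _ (1 ^ 2) (hzm.pow_const 2) fun ω => by
        rw [abs_pow]; exact pow_le_pow_left₀ (abs_nonneg _) (hb n ω) 2
    have i12 : Integrable (fun ω => PS ζ a n ω ^ 2 + 2 * (PS ζ a n ω * ζ n ω))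
        (μ.restrict H) := i1.add i2
    rw [integral_add i12 i3, integral_add i1 i2, integral_const_mul,
      cross hζ hb hm han hH]
    have h2 : ∫ ω in H, ζ n ω ^ 2 ∂μ ≤ μ.real H := by
      calc ∫ ω in H, ζ n ω ^ 2 ∂μ ≤ ∫ ω in H, (1 : ℝ) ∂μ := by
            refine integral_mono i3 (integrable_const _) fun ω => ?_
            have := hb n ω
            rw [← sq_abs]
            have h0 := abs_nonneg (ζ n ω)
            show |ζ n ω| ^ 2 ≤ 1
            nlinarith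
        _ = μ.real H := by simp
    push_cast
    linarith

lemma cheb {ζ : ℕ → Ω → ℝ} (hζ : ∀ n, Measurable[ℱ (n + 1)] (ζ n))
    (hb : ∀ n ω, |ζ n ω| ≤ 1) (hm : ∀ n, μ[ζ n | ℱ n] =ᵐ[μ] 0) {a : ℕ}
    {H : Set Ω} (hH : MeasurableSet[ℱ a] H) (n : ℕ) (han : a ≤ n) {t : ℝ} (ht : 0 < t) :
    μ.real {ω | ω ∈ H ∧ t ≤ |PS ζ a n ω|} ≤ n * μ.real H / t ^ 2 := by
  have hHm : MeasurableSet H := ℱ.le a _ hH
  have hpm : Measurable (PS ζ a n) := (ps_meas hζ a n).mono (ℱ.le n) le_rfl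
  have i1 : Integrable (fun ω => PS ζ a n ω ^ 2) (μ.restrict H) := by
    refine Integrable.of_bound (C := (n : ℝ) ^ 2) (hpm.pow_const 2).aestronglyMeasurable
      (Eventually.of_forall fun ω => ?_)
    rw [Real.norm_eq_abs, abs_pow]
    exact pow_le_pow_left₀ (abs_nonneg _) (ps_bound hb a n ω) 2
  have h1 := mul_meas_ge_le_integral_of_nonneg (μ := μ.restrict H)
    (f := fun ω => PS ζ a n ω ^ 2) (ae_of_all _ fun ω => sq_nonneg _) i1 (t ^ 2)
  have h2 := second_moment hζ hb hm hH n han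
  have h3 : (μ.restrict H).real {ω | t ^ 2 ≤ PS ζ a n ω ^ 2} =
      μ.real {ω | ω ∈ H ∧ t ≤ |PS ζ a n ω|} := by
    rw [measureReal_restrict_apply' hHm]
    congr 1
    ext ω
    simp only [Set.mem_inter_iff, Set.mem_setOf_eq]
    constructor
    · rintro ⟨h4, h5⟩
      exact ⟨h5, by rw [← sq_abs (PS ζ a n ω)] at h4; exact le_of_sq_le_sq h4 (abs_nonneg _)⟩
    · rintro ⟨h4, h5⟩
      exact ⟨by rw [← sq_abs (PS ζ a n ω)]; exact pow_le_pow_left₀ ht.le h5 2, h4⟩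
  rw [h3] at h1
  rw [le_div_iff₀ (by positivity)]
  have h4 : 0 ≤ μ.real H := measureReal_nonneg
  have h5 : ((n : ℝ) - a) * μ.real H ≤ n * μ.real H := by
    apply mul_le_mul_of_nonneg_right _ h4
    have : (0 : ℝ) ≤ a := by positivity
    linarith
  linarith

end Mart

end Pool.Agent.KS6_36.Urn
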